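import Pool.Agent.H66AS.Correct

/-!
# From an assignment to a pair of subdigraphs, and polynomial time
-/

set_option autoImplicit false

namespace Pool.Agent.H66AS

open Relation Pool.Agent.NPC

variable {φ : List Cl}

/-- the choice of the in-neighbours -/
def sel (τ : ℕ → Bool) (v : ℕ) : Bool :=
  if (v - 4).unpair.1 = 0 then true
  else if (v - 4).unpair.1 = 1 then
    decide ((v - 4).unpair.2.unpair.2 = 0) || τ (v - 4).unpair.2.unpair.1
  else if (v - 4).unpair.1 = 5 then !(τ (v - 4).unpair.2.unpair.1)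
  else τ (v - 4).unpair.2.unpair.1

theorem sel_cd (τ : ℕ → Bool) (t i j : ℕ) : sel τ (cd t i j) =
    if t = 0 then true else if t = 1 then decide (j = 0) || τ i
    else if t = 5 then !(τ i) else τ i := by
  unfold sel cd
  simp only [Nat.add_sub_cancel, Nat.unpair_pair]

theorem arc_of {τ : ℕ → Bool} {p : ℕ × ℕ × ℕ} (hp : p ∈ redL φ) :
    ((if sel τ p.1 then p.2.1 else p.2.2), p.1) ∈ lA2 (redL φ) (redB φ) (sel τ) :=
  (mem_lA2 _).2 (Or.inr (Or.inl ⟨p, hp, rfl⟩))

theorem hasPair_red (hb : Bounded3 φ) (h : SAT3 φ) : HasPair (red φ) := by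
  obtain ⟨τ, hτ⟩ := h
  set R : ℕ → ℕ → Prop := fun a b => (a, b) ∈ lA2 (redL φ) (redB φ) (sel τ) with hRdef
  have hc : ∀ e ∈ [(0, 1), (1, 2), (2, 3), (3, 0)], e ∈ lA2 (redL φ) (redB φ) (sel τ) :=
    fun e he => List.mem_append_left _ he
  have e01 : R 0 1 := hc _ (by simp)
  have e12 : R 1 2 := hc _ (by simp)
  have e23 : R 2 3 := hc _ (by simp)
  have e30 : R 3 0 := hc _ (by simp)
  have e10 : ReflTransGen R 1 0 :=
    (ReflTransGen.single e12).trans ((ReflTransGen.single e23).trans (ReflTransGen.single e30))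
  have hL : ∀ i < 3 * φ.length, ∀ (j : ℕ) (hj : j < φ.length), ∀ p ∈ blk φ.length φ[j] i j,
      p ∈ redL φ := fun i hi j hj p hp => mem_redL.2 (Or.inr ⟨i, hi, j, hj, hp⟩)
  -- the arcs
  have aC : ∀ j < φ.length, R 1 (cd 0 0 j) := by
    intro j hj
    have := arc_of (τ := τ) (mem_redL.2 (Or.inl ⟨j, hj, rfl⟩))
    simpa [sel_cd] using this
  have a1z : ∀ i < 3 * φ.length, ∀ (hj : 0 < φ.length), R 1 (cd 1 i 0) := by
    intro i hi hj
    have := arc_of (τ := τ) (hL i hi 0 hj _ (mem_blk.2 (Or.inl rfl)))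
    simpa [sel_cd] using this
  have a1s : ∀ i < 3 * φ.length, ∀ j, j + 1 < φ.length →
      R (if τ i then cd 6 i j else cd 5 i (j + 1)) (cd 1 i (j + 1)) := by
    intro i hi j hj
    have := arc_of (τ := τ) (hL i hi (j + 1) hj _ (mem_blk.2 (Or.inl rfl)))
    simpa [sel_cd] using this
  have a2 : ∀ i < 3 * φ.length, ∀ j, j < φ.length →
      R (if τ i then cd 1 i j else cd 3 i j) (cd 2 i j) := by
    intro i hi j hj
    have := arc_of (τ := τ) (hL i hi j hj _ (mem_blk.2 (Or.inr (Or.inl rfl))))
    simpa [sel_cd] using this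
  have a3 : ∀ i < 3 * φ.length, ∀ j, j < φ.length →
      R (if τ i then cd 2 i j else cd 4 i j) (cd 3 i j) := by
    intro i hi j hj
    have := arc_of (τ := τ) (hL i hi j hj _ (mem_blk.2 (Or.inr (Or.inr (Or.inl rfl)))))
    simpa [sel_cd] using this
  have a4 : ∀ i < 3 * φ.length, ∀ j, j < φ.length →
      R (if τ i then cd 3 i j else cd 1 i ((j + 1) % φ.length)) (cd 4 i j) := by
    intro i hi j hj
    have := arc_of (τ := τ) (hL i hi j hj _ (mem_blk.2 (Or.inr (Or.inr (Or.inr (Or.inl rfl))))))
    simpa [sel_cd] using this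
  have a5 : ∀ i < 3 * φ.length, ∀ j, ∀ hj : j < φ.length,
      R (if τ i then (if occ φ[j] (true, i) = true then cd 0 0 j else 1) else cd 2 i j)
        (cd 5 i j) := by
    intro i hi j hj
    have := arc_of (τ := τ) (hL i hi j hj _
      (mem_blk.2 (Or.inr (Or.inr (Or.inr (Or.inr (Or.inl rfl)))))))
    cases hτi : τ i <;> simpa [sel_cd, hτi] using this
  have a6 : ∀ i < 3 * φ.length, ∀ j, ∀ hj : j < φ.length,
      R (if τ i then cd 4 i j else (if occ φ[j] (false, i) = true then cd 0 0 j else 1))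
        (cd 6 i j) := by
    intro i hi j hj
    have := arc_of (τ := τ) (hL i hi j hj _
      (mem_blk.2 (Or.inr (Or.inr (Or.inr (Or.inr (Or.inr rfl)))))))
    simpa [sel_cd] using this
  have b5 : ∀ i < 3 * φ.length, ∀ j, j < φ.length → R (cd 5 i j) 1 := by
    intro i hi j hj
    exact (mem_lA2 _).2 (Or.inr (Or.inr ⟨_, mem_redB.2 ⟨i, hi, j, hj, Or.inl rfl⟩, rfl⟩))
  have b6 : ∀ i < 3 * φ.length, ∀ j, j < φ.length → R (cd 6 i j) 1 := by
    intro i hi j hj
    exact (mem_lA2 _).2 (Or.inr (Or.inr ⟨_, mem_redB.2 ⟨i, hi, j, hj, Or.inr rfl⟩, rfl⟩))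
  -- reachability from the core
  have r1 : ReflTransGen R 0 1 := ReflTransGen.single e01
  have rC : ∀ j < φ.length, ReflTransGen R 0 (cd 0 0 j) := fun j hj => r1.tail (aC j hj)
  have rX : ∀ (l : Bool × ℕ) (j : ℕ) (hj : j < φ.length),
      ReflTransGen R 0 (if occ φ[j] l = true then cd 0 0 j else 1) := by
    intro l j hj
    split_ifs
    · exact rC j hj
    · exact r1
  have rA : ∀ i < 3 * φ.length, ∀ j, j < φ.length → ReflTransGen R 0 (cd 1 i j) := by
    intro i hi
    cases hτi : τ i with
    | true =>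
      intro j
      induction j with
      | zero => intro hj; exact r1.tail (a1z i hi hj)
      | succ j ih =>
        intro hj
        have hj' : j < φ.length := by omega
        have s1 := a1s i hi j hj
        have s2 := a2 i hi j hj'
        have s3 := a3 i hi j hj'
        have s4 := a4 i hi j hj'
        have s6 := a6 i hi j hj'
        rw [hτi, if_pos rfl] at s1 s2 s3 s4 s6
        exact (((((ih hj').tail s2).tail s3).tail s4).tail s6).tail s1
    | false =>
      have down : ∀ k, k < φ.length → ReflTransGen R 0 (cd 1 i ((φ.length - k) % φ.length)) := by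
        intro k
        induction k with
        | zero =>
          intro hk
          rw [Nat.sub_zero, Nat.mod_self]
          exact r1.tail (a1z i hi hk)
        | succ k ih =>
          intro hk
          have ihk := ih (by omega)
          have e1 : φ.length - k = (φ.length - (k + 1)) + 1 := by omega
          have hj' : φ.length - (k + 1) < φ.length := by omega
          have s4 := a4 i hi _ hj'
          have s3 := a3 i hi _ hj'
          have s2 := a2 i hi _ hj'
          have s5 := a5 i hi _ hj'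
          rw [hτi, if_neg (by simp)] at s2 s3 s4 s5
          rw [e1] at ihk
          rw [Nat.mod_eq_of_lt hj']
          have hs : (φ.length - (k + 1) - 1) + 1 = φ.length - (k + 1) := by omega
          have s1 := a1s i hi (φ.length - (k + 1) - 1) (by omega)
          rw [hτi, if_neg (by simp), hs] at s1
          exact (((((ihk.tail s4).tail s3).tail s2).tail s5).tail s1)
      intro j hj
      have := down ((φ.length - j) % φ.length) (Nat.mod_lt _ (by omega))
      have e : (φ.length - (φ.length - j) % φ.length) % φ.length = j := by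
        rcases Nat.eq_zero_or_pos j with rfl | h0
        · simp
        · rw [Nat.mod_eq_of_lt (show φ.length - j < φ.length by omega)]
          have : φ.length - (φ.length - j) = j := by omega
          rw [this, Nat.mod_eq_of_lt hj]
      rwa [e] at this
  have rest : ∀ i < 3 * φ.length, ∀ j, j < φ.length → ReflTransGen R 0 (cd 2 i j) ∧
      ReflTransGen R 0 (cd 3 i j) ∧ ReflTransGen R 0 (cd 4 i j) ∧ ReflTransGen R 0 (cd 5 i j) ∧
      ReflTransGen R 0 (cd 6 i j) := by
    intro i hi j hj
    have q1 := rA i hi j hj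
    have q1' := rA i hi _ (Nat.mod_lt (j + 1) (by omega : 0 < φ.length))
    have s2 := a2 i hi j hj
    have s3 := a3 i hi j hj
    have s4 := a4 i hi j hj
    have s5 := a5 i hi j hj
    have s6 := a6 i hi j hj
    cases hτi : τ i with
    | true =>
      rw [hτi, if_pos rfl] at s2 s3 s4 s5 s6
      have q2 := q1.tail s2
      have q3 := q2.tail s3
      have q4 := q3.tail s4
      exact ⟨q2, q3, q4, (rX _ j hj).tail s5, q4.tail s6⟩
    | false =>
      rw [hτi, if_neg (by simp)] at s2 s3 s4 s5 s6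
      have q4 := q1'.tail s4
      have q3 := q4.tail s3
      have q2 := q3.tail s2
      exact ⟨q2, q3, q4, q2.tail s5, (rX _ j hj).tail s6⟩
  -- reachability of the core
  have back : ∀ i < 3 * φ.length, ∀ j, j < φ.length → ReflTransGen R (cd 2 i j) 0 ∧
      ReflTransGen R (cd 3 i j) 0 ∧ ReflTransGen R (cd 4 i j) 0 ∧ ReflTransGen R (cd 5 i j) 0 ∧
      ReflTransGen R (cd 6 i j) 0 := by
    intro i hi j hj
    have s2 := a2 i hi j hj
    have s3 := a3 i hi j hj
    have s4 := a4 i hi j hj
    have s5 := a5 i hi j hj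
    have s6 := a6 i hi j hj
    have q5 : ReflTransGen R (cd 5 i j) 0 := e10.head (b5 i hi j hj)
    have q6 : ReflTransGen R (cd 6 i j) 0 := e10.head (b6 i hi j hj)
    cases hτi : τ i with
    | true =>
      rw [hτi, if_pos rfl] at s2 s3 s4 s5 s6
      have q4 := q6.head s6
      have q3 := q4.head s4
      have q2 := q3.head s3
      exact ⟨q2, q3, q4, q5, q6⟩
    | false =>
      rw [hτi, if_neg (by simp)] at s2 s3 s4 s5 s6
      have q2 := q5.head s5
      have q3 := q2.head s2
      have q4 := q3.head s3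
      exact ⟨q2, q3, q4, q5, q6⟩
  have backA : ∀ i < 3 * φ.length, ∀ j, j < φ.length → ReflTransGen R (cd 1 i j) 0 := by
    intro i hi j hj
    cases hτi : τ i with
    | true =>
      have s2 := a2 i hi j hj
      rw [hτi, if_pos rfl] at s2
      exact (back i hi j hj).1.head s2
    | false =>
      have hj' : (j + (φ.length - 1)) % φ.length < φ.length := Nat.mod_lt _ (by omega)
      have s4 := a4 i hi _ hj'
      rw [hτi, if_neg (by simp)] at s4
      have e : ((j + (φ.length - 1)) % φ.length + 1) % φ.length = j := by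
        rw [Nat.mod_add_mod, Nat.add_assoc, Nat.sub_add_cancel (by omega), Nat.add_mod_right,
          Nat.mod_eq_of_lt hj]
      rw [e] at s4
      exact (back i hi _ hj').2.2.1.head s4
  have backC : ∀ j < φ.length, ReflTransGen R (cd 0 0 j) 0 := by
    intro j hj
    have hcl := hτ _ (List.getElem_mem hj)
    obtain ⟨h1, h2, h3⟩ := hb _ (List.getElem_mem hj)
    have key : ∃ l : Bool × ℕ, l.2 < 3 * φ.length ∧ occ φ[j] l = true ∧ τ l.2 = l.1 := by
      rcases hcl with h | h | h
      · exact ⟨φ[j].1, h1, (occ_iff _ _).2 (Or.inl rfl), h⟩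
      · exact ⟨φ[j].2.1, h2, (occ_iff _ _).2 (Or.inr (Or.inl rfl)), h⟩
      · exact ⟨φ[j].2.2, h3, (occ_iff _ _).2 (Or.inr (Or.inr rfl)), h⟩
    obtain ⟨⟨s, i⟩, hi, ho, hs⟩ := key
    simp only at hi hs
    cases s with
    | true =>
      have s5 := a5 i hi j hj
      rw [hs, if_pos rfl, if_pos ho] at s5
      exact (back i hi j hj).2.2.2.1.head s5
    | false =>
      have s6 := a6 i hi j hj
      rw [hs, if_neg (by simp), if_pos ho] at s6
      exact (back i hi j hj).2.2.2.2.head s6
  refine hasPair_of (ok φ) (sel τ) ?_ ?_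
  · intro p hp
    have h1 := mem_names.1 (List.mem_map_of_mem (f := fun p : ℕ × ℕ × ℕ => p.1) hp)
    rcases h1 with ⟨j, hj, h⟩ | ⟨t, i, j, ht1, ht2, hi, hj, h⟩
    · rw [h]; exact rC j hj
    · rw [h]
      obtain ⟨q2, q3, q4, q5, q6⟩ := rest i hi j hj
      have : t = 1 ∨ t = 2 ∨ t = 3 ∨ t = 4 ∨ t = 5 ∨ t = 6 := by omega
      rcases this with rfl | rfl | rfl | rfl | rfl | rfl
      · exact rA i hi j hj
      · exact q2
      · exact q3
      · exact q4
      · exact q5
      · exact q6
  · intro p hp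
    have h1 := mem_names.1 (List.mem_map_of_mem (f := fun p : ℕ × ℕ × ℕ => p.1) hp)
    rcases h1 with ⟨j, hj, h⟩ | ⟨t, i, j, ht1, ht2, hi, hj, h⟩
    · rw [h]; exact backC j hj
    · rw [h]
      obtain ⟨q2, q3, q4, q5, q6⟩ := back i hi j hj
      have : t = 1 ∨ t = 2 ∨ t = 3 ∨ t = 4 ∨ t = 5 ∨ t = 6 := by omega
      rcases this with rfl | rfl | rfl | rfl | rfl | rfl
      · exact backA i hi j hj
      · exact q2
      · exact q3
      · exact q4
      · exact q5
      · exact q6

theorem red_iff (hb : Bounded3 φ) : SAT3 φ ↔ HasPair (red φ) := by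
  refine ⟨hasPair_red hb, fun h => ?_⟩
  obtain ⟨P, hP⟩ := sol_of_hasPair (ok φ) h
  exact sat_of_sol hP

theorem poly_cd {α : Type} [TEnc α] {f g h : α → ℕ} (hf : Poly f) (hg : Poly g) (hh : Poly h) :
    Poly (fun a => cd (f a) (g a) (h a)) := by
  unfold cd Nat.pair
  fun_prop

attribute [fun_prop] poly_cd

theorem poly_occ {α : Type} [TEnc α] {f : α → Cl} {g : α → Bool × ℕ} (hf : Poly f) (hg : Poly g) :
    Poly (fun a => occ (f a) (g a)) := by
  unfold occ
  fun_prop

attribute [fun_prop] poly_occ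

theorem poly_range3 : Poly (fun φ : List Cl => List.range (3 * φ.length)) := by
  refine (Poly.range_length (l := fun φ : List Cl => φ ++ (φ ++ φ)) ?_).congr fun φ => ?_
  · fun_prop
  · simp only [List.length_append]
    congr 1
    ring

/-- the part of the list belonging to one variable -/
def rowL (φ : List Cl) (i : ℕ) : List (ℕ × ℕ × ℕ) := φ.zipIdx.flatMap fun p =>
  blk φ.length p.1 i p.2

/-- the part of the list belonging to one variable -/
def rowB (φ : List Cl) (i : ℕ) : List ℕ := φ.zipIdx.flatMap fun p => [cd 5 i p.2, cd 6 i p.2]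

theorem poly_rowL : Poly (fun p : List Cl × ℕ => rowL p.1 p.2) := by
  unfold rowL blk
  fun_prop

theorem poly_rowB : Poly (fun p : List Cl × ℕ => rowB p.1 p.2) := by
  unfold rowB
  fun_prop

theorem poly_redL : Poly redL := by
  have h1 : Poly (fun φ : List Cl => φ.zipIdx.map (fun p => (cd 0 0 p.2, 1, 2))) := by fun_prop
  have h2 : Poly (fun φ : List Cl => (List.range (3 * φ.length)).flatMap (rowL φ)) :=
    Poly.flatMap (F := rowL) poly_range3 poly_rowL
  exact Poly.append h1 h2

theorem poly_redB : Poly redB := Poly.flatMap (F := rowB) poly_range3 poly_rowB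

theorem poly_red : Poly red := by
  have h1 := poly_redL
  have h2 := poly_redB
  unfold red mkD
  fun_prop

/-- All vertices other than the vertices `0`, `1`, `2`, `3` have in-degree two. -/
def InTwo (D : DG) : Prop :=
  ∀ v ∈ D.1, 4 ≤ v → ∃ x y, x ≠ y ∧ ∀ z, (z, v) ∈ D.2 ↔ z = x ∨ z = y

theorem Ok.inTwo {L : List (ℕ × ℕ × ℕ)} {B : List ℕ} (h : Ok L B) : InTwo (mkD L B) := by
  intro v hv h4
  have h1 : ∃ p ∈ L, p.1 = v := by
    simp only [mkD, List.mem_append, List.mem_cons, List.not_mem_nil, or_false, List.mem_map] at hv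
    rcases hv with h1 | h1
    · omega
    · exact h1
  obtain ⟨p, hp, rfl⟩ := h1
  exact ⟨p.2.1, p.2.2, (h.ne p hp).1, fun z => h.in_arc hp⟩

theorem hardPr : HardPr (fun D => IsDigraph D ∧ InTwo D) AntistrongStrong := by
  refine hardPr_SAT3b.trans poly_red ?_ ?_
  · rintro φ -
    exact ⟨(ok φ).isDigraph, (ok φ).inTwo⟩
  · rintro φ ⟨-, hb, -⟩
    unfold AntistrongStrong
    rw [red_iff hb]
    exact ⟨fun h => ⟨(ok φ).isDigraph, h⟩, fun h => h.2⟩

end Pool.Agent.H66AS
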