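import Pool.Agent.H66AS.Sound

/-!
# Building a pair of subdigraphs
-/

set_option autoImplicit false

namespace Pool.Agent.H66AS

open Relation

variable {L : List (ℕ × ℕ × ℕ)} {B : List ℕ}

/-- The bipartite representation: `(true, v)` is the vertex `v'`, `(false, v)` the vertex `v''`. -/
def BG (A : Finset (ℕ × ℕ)) : SimpleGraph (Bool × ℕ) where
  Adj a b := (a.1 = true ∧ b.1 = false ∧ (a.2, b.2) ∈ A) ∨
    (a.1 = false ∧ b.1 = true ∧ (b.2, a.2) ∈ A)
  symm := ⟨by
    rintro a b (⟨h1, h2, h3⟩ | ⟨h1, h2, h3⟩)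
    · exact Or.inr ⟨h2, h1, h3⟩
    · exact Or.inl ⟨h2, h1, h3⟩⟩
  loopless := ⟨by
    rintro a (⟨h1, h2, h3⟩ | ⟨h1, h2, h3⟩)
    · rw [h1] at h2; simp at h2
    · rw [h1] at h2; simp at h2⟩

theorem walk_arcs {A : Finset (ℕ × ℕ)} {a b : Bool × ℕ} (w : (BG A).Walk a b) :
    (altArcs a.1 (w.support.map (fun z => z.2))).map (fun e => s((true, e.1), (false, e.2))) =
      w.edges := by
  induction w with
  | nil => simp [altArcs]
  | @cons u v z h w ih =>
    rw [SimpleGraph.Walk.support_cons, SimpleGraph.Walk.edges_cons, List.map_cons, ← ih]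
    rw [← SimpleGraph.Walk.cons_tail_support w, List.map_cons, altArcs, List.map_cons]
    have h1 : (!u.1) = v.1 := by
      rcases h with ⟨h1, h2, -⟩ | ⟨h1, h2, -⟩ <;> rw [h1, h2] <;> rfl
    rw [h1]
    congr 1
    obtain ⟨ub, un⟩ := u
    obtain ⟨vb, vn⟩ := v
    rcases h with ⟨h1, h2, -⟩ | ⟨h1, h2, -⟩ <;> simp only at h1 h2 <;> subst h1 <;> subst h2
    · simp
    · simp [Sym2.eq_swap]

theorem trail_of_reachable {A : Finset (ℕ × ℕ)} {x y : ℕ}
    (h : (BG A).Reachable (true, x) (false, y)) : ∃ l, IsFwdTrail A x y l := by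
  classical
  obtain ⟨w⟩ := h
  obtain ⟨p, hp⟩ := w.toPath
  have h1 := walk_arcs p
  simp only at h1
  refine ⟨p.support.map (fun z => z.2), ?_, ?_, ?_, ?_, ?_⟩
  · rw [← SimpleGraph.Walk.cons_tail_support p]
    rfl
  · rw [List.getLast?_map, List.getLast?_eq_getLast_of_ne_nil p.support_ne_nil]
    simp
  · rw [← List.length_map (f := fun e : ℕ × ℕ => s((true, e.1), (false, e.2))), h1,
      SimpleGraph.Walk.length_edges]
    have key : ∀ {a b : Bool × ℕ} (w : (BG A).Walk a b), (Odd w.length ↔ a.1 ≠ b.1) := by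
      intro a b w
      induction w with
      | nil => simp
      | @cons u v z h w ih =>
        rw [SimpleGraph.Walk.length_cons, Nat.odd_add_one, ih]
        have h1 : (!u.1) = v.1 := by
          rcases h with ⟨h1, h2, -⟩ | ⟨h1, h2, -⟩ <;> rw [h1, h2] <;> rfl
        rw [← h1]
        cases u.1 <;> cases z.1 <;> simp
    rw [key]
    simp
  · have h2 := hp.isTrail.edges_nodup
    rw [← h1] at h2
    exact List.Nodup.of_map _ h2
  · intro e he
    have h2 : s((true, e.1), (false, e.2)) ∈ p.edges := by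
      rw [← h1]
      exact List.mem_map_of_mem (f := fun e : ℕ × ℕ => s((true, e.1), (false, e.2))) he
    have h3 := p.adj_of_mem_edges h2
    rcases h3 with ⟨-, -, h3⟩ | ⟨h3, -, -⟩
    · exact h3
    · simp at h3

/-- the arcs of the antistrong part -/
def lA1 (L : List (ℕ × ℕ × ℕ)) (σ : ℕ → Bool) : List (ℕ × ℕ) :=
  [(0, 2), (0, 3), (1, 0), (1, 3), (2, 0), (2, 1), (3, 1), (3, 2)] ++
    L.flatMap (fun p => [(if σ p.1 then p.2.2 else p.2.1, p.1), (p.1, 0)])

/-- the arcs of the strong part -/
def lA2 (L : List (ℕ × ℕ × ℕ)) (B : List ℕ) (σ : ℕ → Bool) : List (ℕ × ℕ) :=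
  [(0, 1), (1, 2), (2, 3), (3, 0)] ++
    (L.map (fun p => (if σ p.1 then p.2.1 else p.2.2, p.1)) ++ B.map fun v => (v, 1))

theorem mem_lA1 {σ : ℕ → Bool} (e : ℕ × ℕ) : e ∈ lA1 L σ ↔
    e ∈ [(0, 2), (0, 3), (1, 0), (1, 3), (2, 0), (2, 1), (3, 1), (3, 2)] ∨
    ∃ p ∈ L, e = (if σ p.1 then p.2.2 else p.2.1, p.1) ∨ e = (p.1, 0) := by
  simp only [lA1, List.mem_append, List.mem_flatMap, List.mem_cons, List.not_mem_nil, or_false]

theorem mem_lA2 {σ : ℕ → Bool} (e : ℕ × ℕ) : e ∈ lA2 L B σ ↔
    e ∈ [(0, 1), (1, 2), (2, 3), (3, 0)] ∨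
    (∃ p ∈ L, (if σ p.1 then p.2.1 else p.2.2, p.1) = e) ∨ ∃ v ∈ B, (v, 1) = e := by
  simp only [lA2, List.mem_append, List.mem_map]

theorem hasPair_of (h : Ok L B) (σ : ℕ → Bool)
    (h1 : ∀ p ∈ L, ReflTransGen (fun a b => (a, b) ∈ lA2 L B σ) 0 p.1)
    (h2 : ∀ p ∈ L, ReflTransGen (fun a b => (a, b) ∈ lA2 L B σ) p.1 0) : HasPair (mkD L B) := by
  classical
  have hV : ∀ x ∈ (mkD L B).1, x = 0 ∨ x = 1 ∨ x = 2 ∨ x = 3 ∨ ∃ p ∈ L, p.1 = x := by
    intro x hx
    simpa only [mkD, List.mem_append, List.mem_cons, List.not_mem_nil, or_false, List.mem_map,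
      or_assoc] using hx
  refine ⟨(lA1 L σ).toFinset, (lA2 L B σ).toFinset, ?_, ?_, ?_, ⟨?_, ?_⟩, ?_⟩
  · intro e he
    rw [List.mem_toFinset, mem_lA1] at he
    rw [mem_arcs]
    rcases he with he | ⟨p, hp, he | he⟩
    · left
      simp only [List.mem_cons, List.not_mem_nil, or_false] at he
      rcases he with rfl | rfl | rfl | rfl | rfl | rfl | rfl | rfl <;> simp [coreArcs]
    · right; left
      refine ⟨p, hp, ?_⟩
      split_ifs at he
      · exact Or.inr (Or.inl he)
      · exact Or.inl he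
    · right; left
      exact ⟨p, hp, Or.inr (Or.inr he)⟩
  · intro e he
    rw [List.mem_toFinset, mem_lA2] at he
    rw [mem_arcs]
    rcases he with he | ⟨p, hp, he⟩ | he
    · left
      simp only [List.mem_cons, List.not_mem_nil, or_false] at he
      rcases he with rfl | rfl | rfl | rfl <;> simp [coreArcs]
    · right; left
      refine ⟨p, hp, ?_⟩
      split_ifs at he
      · exact Or.inl he.symm
      · exact Or.inr (Or.inl he.symm)
    · right; right
      exact he
  · rw [Finset.disjoint_left]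
    intro e he he'
    rw [List.mem_toFinset, mem_lA1] at he
    rw [List.mem_toFinset, mem_lA2] at he'
    rcases he with he | ⟨p, hp, he | he⟩
    · have h3 : e.1 < 4 ∧ e.2 < 4 := by
        simp only [List.mem_cons, List.not_mem_nil, or_false] at he
        rcases he with rfl | rfl | rfl | rfl | rfl | rfl | rfl | rfl <;> simp
      rcases he' with he' | ⟨q, hq, rfl⟩ | ⟨v, hv, rfl⟩
      · simp only [List.mem_cons, List.not_mem_nil, or_false] at he he'
        rcases he with rfl | rfl | rfl | rfl | rfl | rfl | rfl | rfl <;> simp at he'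
      · have := h.four q hq
        simp only at h3
        omega
      · have h4 := h.Bmem v hv
        rw [List.mem_map] at h4
        obtain ⟨q, hq, rfl⟩ := h4
        have := h.four q hq
        simp only at h3
        omega
    · have h4 := h.four p hp
      subst he
      rcases he' with he' | ⟨q, hq, he'⟩ | ⟨v, hv, he'⟩
      · simp only [List.mem_cons, List.not_mem_nil, or_false, Prod.mk.injEq] at he'
        omega
      · rw [Prod.mk.injEq] at he'
        have h5 := h.uniq hq hp he'.2
        subst h5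
        have h6 := (h.ne q hq).1
        have h7 := he'.1
        split_ifs at h7
        · exact h6 h7
        · exact h6 h7.symm
      · rw [Prod.mk.injEq] at he'
        omega
    · have h4 := h.four p hp
      subst he
      rcases he' with he' | ⟨q, hq, he'⟩ | ⟨v, hv, he'⟩
      · simp only [List.mem_cons, List.not_mem_nil, or_false, Prod.mk.injEq] at he'
        omega
      · rw [Prod.mk.injEq] at he'
        have := h.four q hq
        omega
      · rw [Prod.mk.injEq] at he'
        omega
  · simp [mkD]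
  · intro x hx y hy _
    apply trail_of_reachable
    -- everything is connected to `(false, 0)`
    set A := (lA1 L σ).toFinset with hA
    have hadj : ∀ a b : ℕ, (a, b) ∈ lA1 L σ → (BG A).Reachable (true, a) (false, b) := by
      intro a b hab
      exact SimpleGraph.Adj.reachable (Or.inl ⟨rfl, rfl, by rw [hA, List.mem_toFinset]; exact hab⟩)
    have hc : ∀ e ∈ [(0, 2), (0, 3), (1, 0), (1, 3), (2, 0), (2, 1), (3, 1), (3, 2)],
        e ∈ lA1 L σ := fun e he => List.mem_append_left _ he
    have g10 := hadj 1 0 (hc _ (by simp))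
    have g20 := hadj 2 0 (hc _ (by simp))
    have g13 := hadj 1 3 (hc _ (by simp))
    have g03 := hadj 0 3 (hc _ (by simp))
    have g02 := hadj 0 2 (hc _ (by simp))
    have g32 := hadj 3 2 (hc _ (by simp))
    have g31 := hadj 3 1 (hc _ (by simp))
    have g21 := hadj 2 1 (hc _ (by simp))
    have t1 : (BG A).Reachable (true, 1) (false, 0) := g10
    have t2 : (BG A).Reachable (true, 2) (false, 0) := g20
    have f3 : (BG A).Reachable (false, 3) (false, 0) := g13.symm.trans t1
    have t0 : (BG A).Reachable (true, 0) (false, 0) := g03.trans f3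
    have f2 : (BG A).Reachable (false, 2) (false, 0) := g02.symm.trans t0
    have t3 : (BG A).Reachable (true, 3) (false, 0) := g32.trans f2
    have f1 : (BG A).Reachable (false, 1) (false, 0) := g31.symm.trans t3
    have tt : ∀ x ∈ (mkD L B).1, (BG A).Reachable (true, x) (false, 0) := by
      intro x hx
      rcases hV x hx with rfl | rfl | rfl | rfl | ⟨p, hp, rfl⟩
      · exact t0
      · exact t1
      · exact t2
      · exact t3
      · exact hadj _ _ ((mem_lA1 _).2 (Or.inr ⟨p, hp, Or.inr rfl⟩))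
    have hm : ∀ z : ℕ, (z = 1 ∨ z = 2 ∨ z ∈ L.map (fun p => p.1)) → z ∈ (mkD L B).1 := by
      rintro z (rfl | rfl | hz)
      · simp [mkD]
      · simp [mkD]
      · exact List.mem_append_right _ hz
    have ff : (BG A).Reachable (false, y) (false, 0) := by
      rcases hV y hy with rfl | rfl | rfl | rfl | ⟨p, hp, rfl⟩
      · exact SimpleGraph.Reachable.refl _
      · exact f1
      · exact f2
      · exact f3
      · have h5 := hadj _ _ ((mem_lA1 _).2 (Or.inr ⟨p, hp, Or.inl rfl⟩))
        refine h5.symm.trans (tt _ (hm _ ?_))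
        split_ifs
        · exact h.par2 p hp
        · exact h.par1 p hp
    exact (tt x hx).trans ff.symm
  · have hR : ∀ a b, (a, b) ∈ lA2 L B σ → (a, b) ∈ (lA2 L B σ).toFinset := by
      intro a b hab
      rwa [List.mem_toFinset]
    have hR' : (fun a b => (a, b) ∈ (lA2 L B σ).toFinset) = fun a b => (a, b) ∈ lA2 L B σ := by
      funext a b
      rw [List.mem_toFinset]
    rw [Strong, hR']
    have hc : ∀ e ∈ [(0, 1), (1, 2), (2, 3), (3, 0)], e ∈ lA2 L B σ :=
      fun e he => List.mem_append_left _ he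
    have e01 : ReflTransGen (fun a b => (a, b) ∈ lA2 L B σ) 0 1 :=
      ReflTransGen.single (hc _ (by simp))
    have e12 : ReflTransGen (fun a b => (a, b) ∈ lA2 L B σ) 1 2 :=
      ReflTransGen.single (hc _ (by simp))
    have e23 : ReflTransGen (fun a b => (a, b) ∈ lA2 L B σ) 2 3 :=
      ReflTransGen.single (hc _ (by simp))
    have e30 : ReflTransGen (fun a b => (a, b) ∈ lA2 L B σ) 3 0 :=
      ReflTransGen.single (hc _ (by simp))
    intro x hx y hy
    have hx0 : ReflTransGen (fun a b => (a, b) ∈ lA2 L B σ) x 0 := by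
      rcases hV x hx with rfl | rfl | rfl | rfl | ⟨p, hp, rfl⟩
      · exact ReflTransGen.refl
      · exact e12.trans (e23.trans e30)
      · exact e23.trans e30
      · exact e30
      · exact h2 p hp
    have hy0 : ReflTransGen (fun a b => (a, b) ∈ lA2 L B σ) 0 y := by
      rcases hV y hy with rfl | rfl | rfl | rfl | ⟨p, hp, rfl⟩
      · exact ReflTransGen.refl
      · exact e01
      · exact e01.trans e12
      · exact e01.trans (e12.trans e23)
      · exact h1 p hp
    exact hx0.trans hy0

end Pool.Agent.H66AS
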