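import Pool.Agent.H66AS.Red

/-!
# Correctness of the reduction
-/

set_option autoImplicit false

namespace Pool.Agent.H66AS

open Relation Pool.Agent.NPC

variable {φ : List Cl}

theorem cd_ne_small {t i j x : ℕ} (hx : x < 4) : cd t i j ≠ x := by
  have := four_le_cd t i j
  omega

theorem child_aux {q : ℕ × ℕ × ℕ} (hq : q ∈ redL φ) {t i j : ℕ}
    (h : cd t i j = q.2.1 ∨ cd t i j = q.2.2) :
    (t = 0 ∧ ∃ i', ∃ hj : j < φ.length, (q.1 = cd 5 i' j ∧ occ φ[j] (true, i') = true) ∨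
      (q.1 = cd 6 i' j ∧ occ φ[j] (false, i') = true)) ∨
    (t = 1 ∧ (q.1 = cd 2 i j ∨ ∃ j' < φ.length, (j' + 1) % φ.length = j ∧ q.1 = cd 4 i j')) ∨
    (t = 2 ∧ (q.1 = cd 3 i j ∨ q.1 = cd 5 i j)) ∨
    (t = 3 ∧ (q.1 = cd 2 i j ∨ q.1 = cd 4 i j)) ∨
    (t = 4 ∧ (q.1 = cd 3 i j ∨ q.1 = cd 6 i j)) ∨
    t = 5 ∨ t = 6 := by
  have hs1 : cd t i j ≠ 1 := cd_ne_small (by omega)
  have hs2 : cd t i j ≠ 2 := cd_ne_small (by omega)
  rw [mem_redL] at hq
  rcases hq with ⟨j', hj', rfl⟩ | ⟨i', hi', j', hj', hq⟩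
  · simp only at h
    rcases h with h | h
    · exact absurd h hs1
    · exact absurd h hs2
  · rw [mem_blk] at hq
    rcases hq with rfl | rfl | rfl | rfl | rfl | rfl <;> simp only at h ⊢
    · rcases h with h | h <;> split_ifs at h
      · exact absurd h hs1
      · rw [cd_inj] at h; omega
      · exact absurd h hs2
      · rw [cd_inj] at h; omega
    · rw [cd_inj, cd_inj] at h
      rcases h with ⟨rfl, rfl, rfl⟩ | ⟨rfl, rfl, rfl⟩
      · exact Or.inr (Or.inl ⟨rfl, Or.inl rfl⟩)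
      · exact Or.inr (Or.inr (Or.inr (Or.inl ⟨rfl, Or.inl rfl⟩)))
    · rw [cd_inj, cd_inj] at h
      rcases h with ⟨rfl, rfl, rfl⟩ | ⟨rfl, rfl, rfl⟩
      · exact Or.inr (Or.inr (Or.inl ⟨rfl, Or.inl rfl⟩))
      · exact Or.inr (Or.inr (Or.inr (Or.inr (Or.inl ⟨rfl, Or.inl rfl⟩))))
    · rw [cd_inj, cd_inj] at h
      rcases h with ⟨rfl, rfl, rfl⟩ | ⟨rfl, rfl, rfl⟩
      · exact Or.inr (Or.inr (Or.inr (Or.inl ⟨rfl, Or.inr rfl⟩)))
      · exact Or.inr (Or.inl ⟨rfl, Or.inr ⟨j', hj', rfl, rfl⟩⟩)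
    · rcases h with h | h
      · rw [cd_inj] at h
        obtain ⟨rfl, rfl, rfl⟩ := h
        exact Or.inr (Or.inr (Or.inl ⟨rfl, Or.inr rfl⟩))
      · split_ifs at h with ho
        · rw [cd_inj] at h
          obtain ⟨rfl, rfl, rfl⟩ := h
          exact Or.inl ⟨rfl, i', hj', Or.inl ⟨rfl, ho⟩⟩
        · exact absurd h hs1
    · rcases h with h | h
      · rw [cd_inj] at h
        obtain ⟨rfl, rfl, rfl⟩ := h
        exact Or.inr (Or.inr (Or.inr (Or.inr (Or.inl ⟨rfl, Or.inr rfl⟩))))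
      · split_ifs at h with ho
        · rw [cd_inj] at h
          obtain ⟨rfl, rfl, rfl⟩ := h
          exact Or.inl ⟨rfl, i', hj', Or.inr ⟨rfl, ho⟩⟩
        · exact absurd h hs1

theorem not_mem_redB {t i j : ℕ} (h : t ≠ 5 ∧ t ≠ 6) : cd t i j ∉ redB φ := by
  rw [mem_redB]
  rintro ⟨i', -, j', -, h1 | h1⟩ <;> rw [cd_inj] at h1 <;> omega

theorem sat_of_sol {P : ℕ → ℕ → Prop} (h : Sol (redL φ) (redB φ) P) : SAT3 φ := by
  classical
  obtain ⟨hx, hc, hcyc⟩ := h
  rcases Nat.eq_zero_or_pos φ.length with hm | hm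
  · have : φ = [] := List.length_eq_zero_iff.1 hm
    subst this
    exact ⟨fun _ => true, by intro c hc; simp at hc⟩
  -- membership of the vertices
  have hL : ∀ i < 3 * φ.length, ∀ (j : ℕ) (hj : j < φ.length), ∀ p ∈ blk φ.length φ[j] i j,
      p ∈ redL φ := fun i hi j hj p hp => mem_redL.2 (Or.inr ⟨i, hi, j, hj, hp⟩)
  have hstate : ∀ i < 3 * φ.length, ∀ (j : ℕ) (hj : j < φ.length),
      ((P (cd 1 i j) (cd 2 i j) ∧ ¬ P (cd 1 i ((j + 1) % φ.length)) (cd 4 i j) ∧
        P (cd 4 i j) (cd 6 i j)) ∨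
      (¬ P (cd 1 i j) (cd 2 i j) ∧ P (cd 1 i ((j + 1) % φ.length)) (cd 4 i j) ∧
        P (cd 2 i j) (cd 5 i j))) := by
    intro i hi j hj
    have b2 := hL i hi j hj _ (mem_blk.2 (Or.inr (Or.inl rfl)))
    have b3 := hL i hi j hj _ (mem_blk.2 (Or.inr (Or.inr (Or.inl rfl))))
    have b4 := hL i hi j hj _ (mem_blk.2 (Or.inr (Or.inr (Or.inr (Or.inl rfl)))))
    have x2 := hx _ b2
    have x3 := hx _ b3
    have x4 := hx _ b4
    have y1 := hcyc _ b2 _ b3
    have y2 := hcyc _ b3 _ b4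
    have c2 := hc _ b2 (not_mem_redB (by omega))
    have c3 := hc _ b3 (not_mem_redB (by omega))
    have c4 := hc _ b4 (not_mem_redB (by omega))
    simp only at x2 x3 x4 y1 y2 c2 c3 c4
    have d2 : P (cd 2 i j) (cd 3 i j) ∨ P (cd 2 i j) (cd 5 i j) := by
      obtain ⟨q, hq, hP, hqq⟩ := c2
      rcases child_aux hq hqq with ⟨h0, -⟩ | ⟨h0, -⟩ | ⟨-, h0 | h0⟩ | ⟨h0, -⟩ | ⟨h0, -⟩ | h0 | h0
      · omega
      · omega
      · rw [h0] at hP; exact Or.inl hP
      · rw [h0] at hP; exact Or.inr hP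
      all_goals omega
    have d3 : P (cd 3 i j) (cd 2 i j) ∨ P (cd 3 i j) (cd 4 i j) := by
      obtain ⟨q, hq, hP, hqq⟩ := c3
      rcases child_aux hq hqq with ⟨h0, -⟩ | ⟨h0, -⟩ | ⟨h0, -⟩ | ⟨-, h0 | h0⟩ | ⟨h0, -⟩ | h0 | h0
      · omega
      · omega
      · omega
      · rw [h0] at hP; exact Or.inl hP
      · rw [h0] at hP; exact Or.inr hP
      all_goals omega
    have d4 : P (cd 4 i j) (cd 3 i j) ∨ P (cd 4 i j) (cd 6 i j) := by
      obtain ⟨q, hq, hP, hqq⟩ := c4
      rcases child_aux hq hqq with ⟨h0, -⟩ | ⟨h0, -⟩ | ⟨h0, -⟩ | ⟨h0, -⟩ | ⟨-, h0 | h0⟩ | h0 | h0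
      · omega
      · omega
      · omega
      · omega
      · rw [h0] at hP; exact Or.inl hP
      · rw [h0] at hP; exact Or.inr hP
      all_goals omega
    clear c2 c3 c4 b2 b3 b4
    tauto
  -- the states of neighbouring blocks
  have hnext : ∀ i < 3 * φ.length, ∀ (j : ℕ), j < φ.length →
      P (cd 1 i j) (cd 2 i j) ∨ ∃ j' < φ.length, (j' + 1) % φ.length = j ∧
        P (cd 1 i j) (cd 4 i j') := by
    intro i hi j hj
    have b1 := hL i hi j hj _ (mem_blk.2 (Or.inl rfl))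
    obtain ⟨q, hq, hP, hqq⟩ := hc _ b1 (not_mem_redB (by omega))
    rcases child_aux hq hqq with ⟨h0, -⟩ | ⟨-, h0 | ⟨j', hj', h1, h0⟩⟩ | ⟨h0, -⟩ | ⟨h0, -⟩ | ⟨h0, -⟩ |
      h0 | h0
    · omega
    · rw [h0] at hP; exact Or.inl hP
    · rw [h0] at hP; exact Or.inr ⟨j', hj', h1, hP⟩
    all_goals omega
  have hR : ∀ i < 3 * φ.length, P (cd 1 i 0) (cd 2 i 0) → ∀ (j : ℕ), j < φ.length →
      P (cd 1 i j) (cd 2 i j) := by
    intro i hi h0 j
    induction j with
    | zero => intro _; exact h0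
    | succ j ih =>
      intro hj
      have ihj := ih (by omega)
      rcases hnext i hi (j + 1) hj with h1 | ⟨j', hj', h1, h2⟩
      · exact h1
      · exfalso
        have hjj : j' = j := by
          rcases Nat.lt_or_ge (j' + 1) φ.length with h3 | h3
          · rw [Nat.mod_eq_of_lt h3] at h1
            omega
          · have : j' + 1 = φ.length := by omega
            rw [this, Nat.mod_self] at h1
            omega
        subst hjj
        rcases hstate i hi j' hj' with ⟨-, h3, -⟩ | ⟨h3, -, -⟩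
        · rw [h1] at h3
          exact h3 h2
        · exact h3 ihj
  have hLs : ∀ i < 3 * φ.length, ¬ P (cd 1 i 0) (cd 2 i 0) → ∀ (j : ℕ), j < φ.length →
      ¬ P (cd 1 i j) (cd 2 i j) := by
    intro i hi h0
    have last : ¬ P (cd 1 i (φ.length - 1)) (cd 2 i (φ.length - 1)) := by
      rcases hnext i hi 0 hm with h1 | ⟨j', hj', h1, h2⟩
      · exact absurd h1 h0
      · have hjj : j' = φ.length - 1 := by
          rcases Nat.lt_or_ge (j' + 1) φ.length with h3 | h3
          · rw [Nat.mod_eq_of_lt h3] at h1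
            omega
          · omega
        subst hjj
        rcases hstate i hi _ hj' with ⟨-, h3, -⟩ | ⟨h3, -, -⟩
        · rw [h1] at h3
          exact absurd h2 h3
        · exact h3
    have down : ∀ k, k < φ.length → ¬ P (cd 1 i (φ.length - 1 - k)) (cd 2 i (φ.length - 1 - k)) := by
      intro k
      induction k with
      | zero => intro _; exact last
      | succ k ih =>
        intro hk
        have ihk := ih (by omega)
        have e1 : φ.length - 1 - k = (φ.length - 1 - (k + 1)) + 1 := by omega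
        rcases hnext i hi (φ.length - 1 - k) (by omega) with h1 | ⟨j', hj', h1, h2⟩
        · exact absurd h1 ihk
        · have hjj : j' = φ.length - 1 - (k + 1) := by
            rcases Nat.lt_or_ge (j' + 1) φ.length with h3 | h3
            · rw [Nat.mod_eq_of_lt h3] at h1
              omega
            · have : j' + 1 = φ.length := by omega
              rw [this, Nat.mod_self] at h1
              omega
          rw [← hjj]
          rcases hstate i hi j' hj' with ⟨-, h3, -⟩ | ⟨h3, -, -⟩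
          · rw [h1] at h3
            exact absurd h2 h3
          · exact h3
    intro j hj
    have := down (φ.length - 1 - j) (by omega)
    have e : φ.length - 1 - (φ.length - 1 - j) = j := by omega
    rwa [e] at this
  refine ⟨fun i => decide (P (cd 1 i 0) (cd 2 i 0)), ?_⟩
  intro c hcφ
  obtain ⟨j, hj, rfl⟩ := List.getElem_of_mem hcφ
  have bC : ((cd 0 0 j, 1, 2) : ℕ × ℕ × ℕ) ∈ redL φ := mem_redL.2 (Or.inl ⟨j, hj, rfl⟩)
  obtain ⟨q, hq, hP, hqq⟩ := hc _ bC (not_mem_redB (by omega))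
  have key : ∃ l : Bool × ℕ, occ φ[j] l = true ∧ decide (P (cd 1 l.2 0) (cd 2 l.2 0)) = l.1 := by
    rcases child_aux hq hqq with ⟨-, i, hj', ⟨h0, h1⟩ | ⟨h0, h1⟩⟩ | ⟨h0, -⟩ | ⟨h0, -⟩ | ⟨h0, -⟩ |
      ⟨h0, -⟩ | h0 | h0
    · refine ⟨(true, i), h1, ?_⟩
      simp only [decide_eq_true_eq]
      by_contra hn
      have hi : i < 3 * φ.length := by
        have := mem_names.1 (List.mem_map_of_mem (f := fun p : ℕ × ℕ × ℕ => p.1) hq)
        rw [h0] at this
        rcases this with ⟨j1, -, h2⟩ | ⟨t1, i1, j1, -, -, h3, -, h2⟩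
        · rw [cd_inj] at h2; omega
        · rw [cd_inj] at h2
          rw [h2.2.1]
          exact h3
      have h2 := hLs i hi hn j hj
      have b5 := hL i hi j hj _ (mem_blk.2 (Or.inr (Or.inr (Or.inr (Or.inr (Or.inl rfl))))))
      have x5 := hx _ b5
      simp only [h1, if_true] at x5
      rw [h0] at hP
      rcases hstate i hi j hj with ⟨h3, -, -⟩ | ⟨-, -, h3⟩
      · exact h2 h3
      · tauto
    · refine ⟨(false, i), h1, ?_⟩
      simp only [decide_eq_false_iff_not]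
      intro hn
      have hi : i < 3 * φ.length := by
        have := mem_names.1 (List.mem_map_of_mem (f := fun p : ℕ × ℕ × ℕ => p.1) hq)
        rw [h0] at this
        rcases this with ⟨j1, -, h2⟩ | ⟨t1, i1, j1, -, -, h3, -, h2⟩
        · rw [cd_inj] at h2; omega
        · rw [cd_inj] at h2
          rw [h2.2.1]
          exact h3
      have h2 := hR i hi hn j hj
      have b5 := hL i hi j hj _ (mem_blk.2 (Or.inr (Or.inr (Or.inr (Or.inr (Or.inr rfl))))))
      have x5 := hx _ b5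
      simp only [h1, if_true] at x5
      rw [h0] at hP
      rcases hstate i hi j hj with ⟨-, -, h3⟩ | ⟨h3, -, -⟩
      · tauto
      · exact h3 h2
    all_goals omega
  obtain ⟨⟨s, i⟩, h1, h2⟩ := key
  simp only at h2
  rcases (occ_iff _ _).1 h1 with h3 | h3 | h3
  · left
    rw [h3]
    exact h2
  · right; left
    rw [h3]
    exact h2
  · right; right
    rw [h3]
    exact h2

end Pool.Agent.H66AS
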