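import Mathlib

/-!
# Arc-disjoint antistrong and strong spanning subdigraphs: definitions
-/

set_option autoImplicit false

namespace Pool.Agent.H66AS

/-- A digraph: the list of its vertices and the list of its arcs. -/
abbrev DG : Type := List ℕ × List (ℕ × ℕ)

/-- The two lists describe a finite digraph without loops and without parallel arcs. -/
def IsDigraph (D : DG) : Prop :=
  D.1.Nodup ∧ D.2.Nodup ∧ ∀ e ∈ D.2, e.1 ∈ D.1 ∧ e.2 ∈ D.1 ∧ e.1 ≠ e.2

/-- The arcs used by the walk with vertex sequence `l` whose arcs alternate between forward and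
backward, the first one being forward if `b = true` and backward if `b = false`. -/
def altArcs : Bool → List ℕ → List (ℕ × ℕ)
  | _, [] => []
  | _, [_] => []
  | b, x :: y :: l => (if b then (x, y) else (y, x)) :: altArcs (!b) (y :: l)

/-- `l` is the vertex sequence of a forward antidirected trail from `x` to `y` with arcs in `A`: the
arcs alternate between forward and backward, the first and the last are forward, no arc is
repeated. -/
def IsFwdTrail (A : Finset (ℕ × ℕ)) (x y : ℕ) (l : List ℕ) : Prop :=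
  l.head? = some x ∧ l.getLast? = some y ∧ Odd (altArcs true l).length ∧
    (altArcs true l).Nodup ∧ ∀ e ∈ altArcs true l, e ∈ A

/-- The digraph with vertex list `V` and arc set `A` is antistrong. -/
def Antistrong (V : List ℕ) (A : Finset (ℕ × ℕ)) : Prop :=
  3 ≤ V.length ∧ ∀ x ∈ V, ∀ y ∈ V, x ≠ y → ∃ l, IsFwdTrail A x y l

/-- The digraph with vertex list `V` and arc set `A` is strongly connected. -/
def Strong (V : List ℕ) (A : Finset (ℕ × ℕ)) : Prop :=
  ∀ x ∈ V, ∀ y ∈ V, Relation.ReflTransGen (fun a b => (a, b) ∈ A) x y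

/-- The digraph has two arc-disjoint spanning subdigraphs, with arc sets `A1` and `A2`, the first
antistrong and the second strongly connected. -/
def HasPair (D : DG) : Prop :=
  ∃ A1 A2 : Finset (ℕ × ℕ), (∀ e ∈ A1, e ∈ D.2) ∧ (∀ e ∈ A2, e ∈ D.2) ∧ Disjoint A1 A2 ∧
    Antistrong D.1 A1 ∧ Strong D.1 A2

/-- The decision problem. -/
def AntistrongStrong (D : DG) : Prop := IsDigraph D ∧ HasPair D

/-! ### Digraphs made of a core on four vertices and of vertices of in-degree two -/

/-- the arcs of the core -/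
def coreArcs : List (ℕ × ℕ) :=
  [(0, 1), (1, 2), (2, 3), (3, 0), (0, 2), (0, 3), (1, 0), (1, 3), (2, 0), (2, 1), (3, 1), (3, 2)]

/-- The digraph: `L` lists the vertices outside the core together with their two in-neighbours, `B`
lists those which have a second arc to the core. -/
def mkD (L : List (ℕ × ℕ × ℕ)) (B : List ℕ) : DG :=
  ([0, 1, 2, 3] ++ L.map (fun p => p.1),
    coreArcs ++ (L.flatMap (fun p => [(p.2.1, p.1), (p.2.2, p.1), (p.1, 0)]) ++
      B.map fun v => (v, 1)))

/-- conditions on the lists -/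
structure Ok (L : List (ℕ × ℕ × ℕ)) (B : List ℕ) : Prop where
  nodup : (L.map (fun p => p.1)).Nodup
  four : ∀ p ∈ L, 4 ≤ p.1
  ne : ∀ p ∈ L, p.2.1 ≠ p.2.2 ∧ p.2.1 ≠ p.1 ∧ p.2.2 ≠ p.1
  par1 : ∀ p ∈ L, p.2.1 = 1 ∨ p.2.1 = 2 ∨ p.2.1 ∈ L.map (fun p => p.1)
  par2 : ∀ p ∈ L, p.2.2 = 1 ∨ p.2.2 = 2 ∨ p.2.2 ∈ L.map (fun p => p.1)
  Bnodup : B.Nodup
  Bmem : ∀ v ∈ B, v ∈ L.map (fun p => p.1)

variable {L : List (ℕ × ℕ × ℕ)} {B : List ℕ}

theorem mem_arcs (e : ℕ × ℕ) : e ∈ (mkD L B).2 ↔ e ∈ coreArcs ∨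
    (∃ p ∈ L, e = (p.2.1, p.1) ∨ e = (p.2.2, p.1) ∨ e = (p.1, 0)) ∨ ∃ v ∈ B, (v, 1) = e := by
  simp only [mkD, List.mem_append, List.mem_flatMap, List.mem_map, List.mem_cons,
    List.not_mem_nil, or_false]

theorem core_lt {e : ℕ × ℕ} (h : e ∈ coreArcs) : e.1 < 4 ∧ e.2 < 4 := by
  simp only [coreArcs, List.mem_cons, List.not_mem_nil, or_false] at h
  rcases h with rfl | rfl | rfl | rfl | rfl | rfl | rfl | rfl | rfl | rfl | rfl | rfl <;> simp

theorem Ok.uniq (h : Ok L B) {p q : ℕ × ℕ × ℕ} (hp : p ∈ L) (hq : q ∈ L) (hpq : p.1 = q.1) :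
    p = q := List.inj_on_of_nodup_map h.nodup hp hq hpq

/-- in-arcs of the vertices outside the core -/
theorem Ok.in_arc (h : Ok L B) {p : ℕ × ℕ × ℕ} (hp : p ∈ L) {x : ℕ} :
    (x, p.1) ∈ (mkD L B).2 ↔ x = p.2.1 ∨ x = p.2.2 := by
  rw [mem_arcs]
  have h4 := h.four p hp
  constructor
  · rintro (h1 | ⟨q, hq, h1 | h1 | h1⟩ | ⟨v, hv, h1⟩)
    · have := (core_lt h1).2
      simp only at this
      omega
    · simp only [Prod.mk.injEq] at h1
      have := h.uniq hp hq h1.2
      subst this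
      exact Or.inl h1.1
    · simp only [Prod.mk.injEq] at h1
      have := h.uniq hp hq h1.2
      subst this
      exact Or.inr h1.1
    · simp only [Prod.mk.injEq] at h1
      omega
    · simp only [Prod.mk.injEq] at h1
      omega
  · rintro (rfl | rfl)
    · exact Or.inr (Or.inl ⟨p, hp, Or.inl rfl⟩)
    · exact Or.inr (Or.inl ⟨p, hp, Or.inr (Or.inl rfl)⟩)

/-- out-arcs of the vertices outside the core -/
theorem Ok.out_arc (h : Ok L B) {p : ℕ × ℕ × ℕ} (hp : p ∈ L) {y : ℕ}
    (hy : (p.1, y) ∈ (mkD L B).2) :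
    y = 0 ∨ (y = 1 ∧ p.1 ∈ B) ∨ ∃ q ∈ L, q.1 = y ∧ (p.1 = q.2.1 ∨ p.1 = q.2.2) := by
  rw [mem_arcs] at hy
  have h4 := h.four p hp
  rcases hy with h1 | ⟨q, hq, h1 | h1 | h1⟩ | ⟨v, hv, h1⟩
  · have := (core_lt h1).1
    simp only at this
    omega
  · simp only [Prod.mk.injEq] at h1
    exact Or.inr (Or.inr ⟨q, hq, h1.2.symm, Or.inl h1.1⟩)
  · simp only [Prod.mk.injEq] at h1
    exact Or.inr (Or.inr ⟨q, hq, h1.2.symm, Or.inr h1.1⟩)
  · simp only [Prod.mk.injEq] at h1
    exact Or.inl h1.2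
  · simp only [Prod.mk.injEq] at h1
    exact Or.inr (Or.inl ⟨h1.2.symm, by rw [← h1.1]; exact hv⟩)

theorem Ok.isDigraph (h : Ok L B) : IsDigraph (mkD L B) := by
  have hmem : ∀ x, x ∈ L.map (fun p => p.1) → x ∈ (mkD L B).1 := by
    intro x hx
    exact List.mem_append_right _ hx
  have h4 : ∀ x, x ∈ L.map (fun p => p.1) → 4 ≤ x := by
    intro x hx
    rw [List.mem_map] at hx
    obtain ⟨p, hp, rfl⟩ := hx
    exact h.four p hp
  have h12 : (1 : ℕ) ∈ (mkD L B).1 ∧ (2 : ℕ) ∈ (mkD L B).1 ∧ (0 : ℕ) ∈ (mkD L B).1 := by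
    simp [mkD]
  have hpar : ∀ x, (x = 1 ∨ x = 2 ∨ x ∈ L.map (fun p => p.1)) → x ∈ (mkD L B).1 := by
    rintro x (rfl | rfl | hx)
    · exact h12.1
    · exact h12.2.1
    · exact hmem x hx
  refine ⟨?_, ?_, ?_⟩
  · unfold mkD
    rw [List.nodup_append]
    refine ⟨by decide, h.nodup, ?_⟩
    intro a ha b hb
    have := h4 b hb
    simp only [List.mem_cons, List.not_mem_nil, or_false] at ha
    omega
  · unfold mkD
    simp only
    rw [List.nodup_append, List.nodup_append]
    refine ⟨by decide, ⟨?_, ?_, ?_⟩, ?_⟩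
    · rw [List.nodup_flatMap]
      constructor
      · intro p hp
        obtain ⟨h1, h2, h3⟩ := h.ne p hp
        have := h.four p hp
        simp only [List.nodup_cons, List.mem_cons, List.not_mem_nil, or_false, not_or,
          Prod.mk.injEq, not_and, not_false_eq_true, List.nodup_nil, and_true]
        refine ⟨⟨?_, ?_⟩, ?_⟩ <;> omega
      · have hnd := h.nodup
        rw [List.Nodup, List.pairwise_map] at hnd
        refine (List.Pairwise.imp_of_mem (R := fun a b : ℕ × ℕ × ℕ => a.1 ≠ b.1) ?_ hnd)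
        intro p q hp hq hpq
        have hp4 := h.four p hp
        have hq4 := h.four q hq
        intro e he he'
        simp only [List.mem_cons, List.not_mem_nil, or_false] at he he'
        rcases he with rfl | rfl | rfl <;>
          simp only [Prod.mk.injEq] at he' <;> omega
    · exact h.Bnodup.map (fun a b hab => by simpa using hab)
    · intro a ha b hb
      rw [List.mem_flatMap] at ha
      rw [List.mem_map] at hb
      obtain ⟨p, hp, ha⟩ := ha
      obtain ⟨v, hv, rfl⟩ := hb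
      have := h.four p hp
      simp only [List.mem_cons, List.not_mem_nil, or_false] at ha
      rcases ha with rfl | rfl | rfl <;> simp only [ne_eq, Prod.mk.injEq] <;> omega
    · intro a ha b hb
      have h5 := core_lt ha
      rw [List.mem_append, List.mem_flatMap, List.mem_map] at hb
      rcases hb with ⟨p, hp, hb⟩ | ⟨v, hv, rfl⟩
      · have := h.four p hp
        simp only [List.mem_cons, List.not_mem_nil, or_false] at hb
        rcases hb with rfl | rfl | rfl <;> rintro rfl <;> simp only at h5 <;> omega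
      · have := h4 v (h.Bmem v hv)
        rintro rfl
        simp only at h5
        omega
  · intro e he
    rw [mem_arcs] at he
    rcases he with h1 | ⟨p, hp, h1⟩ | ⟨v, hv, rfl⟩
    · simp only [coreArcs, List.mem_cons, List.not_mem_nil, or_false] at h1
      rcases h1 with rfl | rfl | rfl | rfl | rfl | rfl | rfl | rfl | rfl | rfl | rfl | rfl <;>
        simp [mkD]
    · obtain ⟨h2, h3, h5⟩ := h.ne p hp
      have h6 := h.four p hp
      have h7 : p.1 ∈ (mkD L B).1 := hmem _ (List.mem_map_of_mem hp)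
      rcases h1 with rfl | rfl | rfl
      · exact ⟨hpar _ (h.par1 p hp), h7, h3⟩
      · exact ⟨hpar _ (h.par2 p hp), h7, h5⟩
      · exact ⟨h7, h12.2.2, by simp only; omega⟩
    · have h7 := h.Bmem v hv
      exact ⟨hmem _ h7, h12.1, by have := h4 v h7; simp only; omega⟩

end Pool.Agent.H66AS
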