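import Pool.Agent.H66AS.Back
import Pool.Agent.H719.PC.Reach
import Pool.Agent.NPC.Dec

/-!
# The decision problem lies in `NP`
-/

set_option autoImplicit false

namespace Pool.Agent.H66AS

open Relation Pool.Agent.NPC Pool.Agent.H719.PC

theorem nodup_iff_zipIdx {β : Type} (l : List β) :
    (∀ x ∈ l.zipIdx, ∀ y ∈ l.zipIdx, x.1 ≠ y.1 ∨ x.2 = y.2) ↔ l.Nodup := by
  rw [List.nodup_iff_injective_getElem]
  constructor
  · intro h i j hij
    have h1 := h (l[i], i.1) (by
      rw [List.mem_zipIdx_iff_getElem?]; simp) (l[j], j.1) (by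
      rw [List.mem_zipIdx_iff_getElem?]; simp)
    simp only at h1 hij
    rcases h1 with h1 | h1
    · exact absurd hij h1
    · exact Fin.ext h1
  · rintro h ⟨x, i⟩ hx ⟨y, j⟩ hy
    rw [List.mem_zipIdx_iff_getElem?] at hx hy
    simp only at hx hy ⊢
    by_cases hxy : x = y
    · right
      obtain ⟨hi, hi'⟩ := List.getElem?_eq_some_iff.1 hx
      obtain ⟨hj, hj'⟩ := List.getElem?_eq_some_iff.1 hy
      have := @h ⟨i, hi⟩ ⟨j, hj⟩ (by simp only; rw [hi', hj', hxy])
      simpa using this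
    · exact Or.inl hxy

theorem pp_nodup {α β : Type} [TEnc α] [TEnc β] {l : α → List β} (hl : Poly l) :
    PP (fun a => (l a).Nodup) := by
  refine PP.congr (p := fun a => ∀ x ∈ (l a).zipIdx, ∀ y ∈ (l a).zipIdx, x.1 ≠ y.1 ∨ x.2 = y.2)
    ?_ (fun a => nodup_iff_zipIdx _)
  refine PP.ball (r := fun a (x : β × ℕ) => ∀ y ∈ (l a).zipIdx, x.1 ≠ y.1 ∨ x.2 = y.2)
    (Poly.zipIdx hl) ?_
  refine PP.ball (l := fun z : α × (β × ℕ) => (l z.1).zipIdx)
    (r := fun (z : α × (β × ℕ)) (y : β × ℕ) => z.2.1 ≠ y.1 ∨ z.2.2 = y.2)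
    (Poly.zipIdx (hl.comp (Poly.fst Poly.id))) ?_
  exact PP.or (PP.ne (Poly.fst (Poly.snd (Poly.fst Poly.id))) (Poly.fst (Poly.snd Poly.id)))
    (PP.eq (Poly.snd (Poly.snd (Poly.fst Poly.id))) (Poly.snd (Poly.snd Poly.id)))

/-- adjacency in the bipartite representation -/
def bip (A : List (ℕ × ℕ)) (a b : Bool × ℕ) : Bool :=
  (a.1 && (!b.1 && decide ((a.2, b.2) ∈ A))) || (!a.1 && (b.1 && decide ((b.2, a.2) ∈ A)))

/-- the vertices of the bipartite representation -/
def bipV (V : List ℕ) : List (Bool × ℕ) := V.map (fun v => (true, v)) ++ V.map fun v => (false, v)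

theorem mem_bipV {V : List ℕ} {a : Bool × ℕ} : a ∈ bipV V ↔ a.2 ∈ V := by
  obtain ⟨b, v⟩ := a
  unfold bipV
  rw [List.mem_append, List.mem_map, List.mem_map]
  constructor
  · rintro (⟨w, hw, h⟩ | ⟨w, hw, h⟩) <;> rw [Prod.mk.injEq] at h <;> rw [← h.2] <;> exact hw
  · intro h
    cases b with
    | true => exact Or.inl ⟨v, h, rfl⟩
    | false => exact Or.inr ⟨v, h, rfl⟩

/-- a walk whose arcs alternate is a walk in the bipartite representation -/
theorem reach_of_alt {A : List (ℕ × ℕ)} {V : List ℕ} (hA : ∀ e ∈ A, e.1 ∈ V ∧ e.2 ∈ V) (l : List ℕ) :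
    ∀ (b : Bool) (x y : ℕ), l.head? = some x → l.getLast? = some y →
      (∀ e ∈ altArcs b l, e ∈ A) →
      ReflTransGen (fun a c => bip A a c = true ∧ c ∈ bipV V) (b, x)
        (b ^^ decide (Odd (altArcs b l).length), y) := by
  induction l with
  | nil => intro b x y h; simp at h
  | cons a l ih =>
    intro b x y h1 h2 h3
    cases l with
    | nil =>
      simp only [List.head?_cons, Option.some.injEq] at h1
      simp only [List.getLast?_singleton, Option.some.injEq] at h2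
      subst h1; subst h2
      simp [altArcs]
      exact ReflTransGen.refl
    | cons c l =>
      simp only [List.head?_cons, Option.some.injEq] at h1
      subst h1
      rw [List.getLast?_cons_cons] at h2
      have h4 := ih (!b) c y rfl h2 (fun e he => h3 e (by
        rw [altArcs]; exact List.mem_cons_of_mem _ he))
      have h5 : (if b then (a, c) else (c, a)) ∈ A := h3 _ (by rw [altArcs]; exact List.mem_cons_self)
      have h6 : (b ^^ decide (Odd (altArcs b (a :: c :: l)).length)) =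
          ((!b) ^^ decide (Odd (altArcs (!b) (c :: l)).length)) := by
        rw [altArcs, List.length_cons]
        by_cases ho : Odd (altArcs (!b) (c :: l)).length
        · have h7 : ¬ Odd ((altArcs (!b) (c :: l)).length + 1) := by
            rw [Nat.odd_add_one]; simpa using ho
          simp only [ho, h7, decide_true, decide_false]
          cases b <;> rfl
        · have h7 : Odd ((altArcs (!b) (c :: l)).length + 1) := by
            rw [Nat.odd_add_one]; exact ho
          simp only [ho, h7, decide_true, decide_false]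
          cases b <;> rfl
      rw [h6]
      refine h4.head ⟨?_, ?_⟩
      · cases b with
        | true => simp only [if_true] at h5; simp [bip, h5]
        | false => simp only [Bool.false_eq_true, if_false] at h5; simp [bip, h5]
      · rw [mem_bipV]
        cases b with
        | true => simp only [if_true] at h5; exact (hA _ h5).2
        | false => simp only [Bool.false_eq_true, if_false] at h5; exact (hA _ h5).1

theorem reach_of_trail {A : List (ℕ × ℕ)} {V : List ℕ} (hA : ∀ e ∈ A, e.1 ∈ V ∧ e.2 ∈ V) {x y : ℕ}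
    {l : List ℕ} (h : IsFwdTrail A.toFinset x y l) :
    ReflTransGen (fun a c => bip A a c = true ∧ c ∈ bipV V) (true, x) (false, y) := by
  obtain ⟨h1, h2, h3, -, h5⟩ := h
  have := reach_of_alt hA l true x y h1 h2 (fun e he => List.mem_toFinset.1 (h5 e he))
  simpa [h3] using this

theorem trail_of_reach {A : List (ℕ × ℕ)} {V : List ℕ} {x y : ℕ}
    (h : ReflTransGen (fun a c => bip A a c = true ∧ c ∈ bipV V) (true, x) (false, y)) :
    ∃ l, IsFwdTrail A.toFinset x y l := by
  apply trail_of_reachable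
  have key : ∀ a c, ReflTransGen (fun a c => bip A a c = true ∧ c ∈ bipV V) a c →
      (BG A.toFinset).Reachable a c := by
    intro a c hac
    induction hac with
    | refl => exact SimpleGraph.Reachable.refl _
    | @tail u v _ huv ih =>
      refine ih.trans (SimpleGraph.Adj.reachable ?_)
      have h1 := huv.1
      obtain ⟨ub, un⟩ := u
      obtain ⟨vb, vn⟩ := v
      unfold bip at h1
      simp only [Bool.or_eq_true, Bool.and_eq_true, Bool.not_eq_true', decide_eq_true_eq] at h1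
      rcases h1 with ⟨h2, h3, h4⟩ | ⟨h2, h3, h4⟩
      · exact Or.inl ⟨h2, h3, List.mem_toFinset.2 h4⟩
      · exact Or.inr ⟨h2, h3, List.mem_toFinset.2 h4⟩
  exact key _ _ h

/-- The relation verified in polynomial time. -/
def Rel (z : DG × (List (ℕ × ℕ) × List (ℕ × ℕ))) : Prop :=
  IsDigraph z.1 ∧ (∀ e ∈ z.2.1, e ∈ z.1.2 ∧ e ∉ z.2.2) ∧ (∀ e ∈ z.2.2, e ∈ z.1.2) ∧
    3 ≤ z.1.1.length ∧
    (∀ x ∈ z.1.1, ∀ y ∈ z.1.1, x = y ∨ (false, y) ∈ reachG (bip z.2.1) (bipV z.1.1) (true, x)) ∧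
    ∀ x ∈ z.1.1, ∀ y ∈ z.1.1, y ∈ reachG (fun a b => decide ((a, b) ∈ z.2.2)) z.1.1 x

theorem pp_isDigraph {α : Type} [TEnc α] {D : α → DG} (hD : Poly D) :
    PP (fun a => IsDigraph (D a)) := by
  refine PP.and (pp_nodup (Poly.fst hD)) (PP.and (pp_nodup (Poly.snd hD)) ?_)
  refine PP.ball (r := fun a (e : ℕ × ℕ) => e.1 ∈ (D a).1 ∧ e.2 ∈ (D a).1 ∧ e.1 ≠ e.2)
    (Poly.snd hD) ?_
  have h1 : Poly (fun x : α × (ℕ × ℕ) => (D x.1).1) := Poly.fst (hD.comp (Poly.fst Poly.id))
  exact PP.and (PP.mem (Poly.fst (Poly.snd Poly.id)) h1)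
    (PP.and (PP.mem (Poly.snd (Poly.snd Poly.id)) h1)
      (PP.ne (Poly.fst (Poly.snd Poly.id)) (Poly.snd (Poly.snd Poly.id))))

theorem pp_Rel : PP Rel := by
  have hD : Poly (fun z : DG × (List (ℕ × ℕ) × List (ℕ × ℕ)) => z.1) := Poly.fst Poly.id
  have h1 : Poly (fun z : DG × (List (ℕ × ℕ) × List (ℕ × ℕ)) => z.2.1) :=
    Poly.fst (Poly.snd Poly.id)
  have h2 : Poly (fun z : DG × (List (ℕ × ℕ) × List (ℕ × ℕ)) => z.2.2) :=
    Poly.snd (Poly.snd Poly.id)
  refine PP.and (pp_isDigraph hD) (PP.and ?_ (PP.and ?_ (PP.and ?_ (PP.and ?_ ?_))))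
  · refine PP.ball (r := fun (z : DG × (List (ℕ × ℕ) × List (ℕ × ℕ))) e =>
      e ∈ z.1.2 ∧ e ∉ z.2.2) h1 ?_
    exact PP.and (PP.mem (Poly.snd Poly.id) (Poly.snd (hD.comp (Poly.fst Poly.id))))
      (PP.not (PP.mem (Poly.snd Poly.id) (h2.comp (Poly.fst Poly.id))))
  · refine PP.ball (r := fun (z : DG × (List (ℕ × ℕ) × List (ℕ × ℕ))) e => e ∈ z.1.2) h2 ?_
    exact PP.mem (Poly.snd Poly.id) (Poly.snd (hD.comp (Poly.fst Poly.id)))
  · exact PP.le (NPC.Poly.const 3) (Poly.length (Poly.fst hD))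
  · refine PP.ball (r := fun (z : DG × (List (ℕ × ℕ) × List (ℕ × ℕ))) x =>
      ∀ y ∈ z.1.1, x = y ∨ (false, y) ∈ reachG (bip z.2.1) (bipV z.1.1) (true, x))
      (Poly.fst hD) ?_
    refine PP.ball (l := fun w : (DG × (List (ℕ × ℕ) × List (ℕ × ℕ))) × ℕ => w.1.1.1)
      (r := fun (w : (DG × (List (ℕ × ℕ) × List (ℕ × ℕ))) × ℕ) y =>
        w.2 = y ∨ (false, y) ∈ reachG (bip w.1.2.1) (bipV w.1.1.1) (true, w.2))
      ((Poly.fst hD).comp (Poly.fst Poly.id)) ?_
    refine PP.or (PP.eq (by fun_prop) (by fun_prop)) (PP.mem (by fun_prop) ?_)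
    unfold bip bipV
    fun_prop
  · refine PP.ball (r := fun (z : DG × (List (ℕ × ℕ) × List (ℕ × ℕ))) x =>
      ∀ y ∈ z.1.1, y ∈ reachG (fun a b => decide ((a, b) ∈ z.2.2)) z.1.1 x)
      (Poly.fst hD) ?_
    refine PP.ball (l := fun w : (DG × (List (ℕ × ℕ) × List (ℕ × ℕ))) × ℕ => w.1.1.1)
      (r := fun (w : (DG × (List (ℕ × ℕ) × List (ℕ × ℕ))) × ℕ) y =>
        y ∈ reachG (fun a b => decide ((a, b) ∈ w.1.2.2)) w.1.1.1 w.2)
      ((Poly.fst hD).comp (Poly.fst Poly.id)) ?_
    exact PP.mem (by fun_prop) (by fun_prop)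

theorem sz_sublist {β : Type} [TEnc β] {l l' : List β} (h : l.Sublist l') : sz l ≤ sz l' := by
  induction h with
  | slnil => exact le_rfl
  | cons a _ ih =>
    rw [sz_list_cons]
    omega
  | cons_cons a _ ih =>
    rw [sz_list_cons, sz_list_cons]
    omega

theorem problem_iff (D : DG) : AntistrongStrong D ↔
    ∃ w : List (ℕ × ℕ) × List (ℕ × ℕ), sz w ≤ 2 * sz D + 1 ∧ Rel (D, w) := by
  classical
  constructor
  · rintro ⟨hD, A1, A2, hA1, hA2, hdis, ⟨hc, hanti⟩, hstr⟩
    have hm : ∀ A : Finset (ℕ × ℕ), (∀ e ∈ A, e ∈ D.2) →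
        (D.2.filter (fun e => decide (e ∈ A))).toFinset = A := by
      intro A hA
      ext e
      rw [List.mem_toFinset, List.mem_filter, decide_eq_true_eq]
      exact ⟨fun h => h.2, fun h => ⟨hA e h, h⟩⟩
    have hin : ∀ (A : Finset (ℕ × ℕ)) (e : ℕ × ℕ), e ∈ D.2.filter (fun e => decide (e ∈ A)) →
        e ∈ D.2 ∧ e ∈ A := by
      intro A e he
      rwa [List.mem_filter, decide_eq_true_eq] at he
    refine ⟨(D.2.filter (fun e => decide (e ∈ A1)), D.2.filter (fun e => decide (e ∈ A2))), ?_, hD,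
      ?_, ?_, hc, ?_, ?_⟩
    · have h1 := sz_sublist (List.filter_sublist (l := D.2) (p := fun e => decide (e ∈ A1)))
      have h2 := sz_sublist (List.filter_sublist (l := D.2) (p := fun e => decide (e ∈ A2)))
      have h3 : sz D = sz D.1 + sz D.2 + 1 := sz_pair _ _
      have h4 := sz_pair (D.2.filter (fun e => decide (e ∈ A1)))
        (D.2.filter (fun e => decide (e ∈ A2)))
      omega
    · intro e he
      obtain ⟨h1, h2⟩ := hin A1 e he
      exact ⟨h1, fun h3 => (Finset.disjoint_left.1 hdis h2) (hin A2 e h3).2⟩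
    · intro e he
      exact (hin A2 e he).1
    · intro x hx y hy
      by_cases hxy : x = y
      · exact Or.inl hxy
      · right
        simp only at hx hy
        obtain ⟨l, hl⟩ := hanti x hx y hy hxy
        rw [mem_reachG]
        refine ⟨mem_bipV.2 hx, ?_⟩
        rw [← hm A1 hA1] at hl
        refine reach_of_trail (fun e he => ?_) hl
        have h1 := hD.2.2 e (hin A1 e he).1
        exact ⟨h1.1, h1.2.1⟩
    · intro x hx y hy
      rw [mem_reachG]
      refine ⟨hx, ReflTransGen.mono ?_ _ _ (hstr x hx y hy)⟩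
      intro a b hab
      have h1 := hA2 _ hab
      refine ⟨?_, (hD.2.2 _ h1).2.1⟩
      rw [decide_eq_true_eq, List.mem_filter, decide_eq_true_eq]
      exact ⟨h1, hab⟩
  · rintro ⟨⟨l1, l2⟩, -, hD, h1, h2, h3, h4, h5⟩
    simp only at hD h1 h2 h3 h4 h5
    refine ⟨hD, l1.toFinset, l2.toFinset, ?_, ?_, ?_, ⟨h3, ?_⟩, ?_⟩
    · intro e he
      exact (h1 e (List.mem_toFinset.1 he)).1
    · intro e he
      exact h2 e (List.mem_toFinset.1 he)
    · rw [Finset.disjoint_left]
      intro e he he'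
      exact (h1 e (List.mem_toFinset.1 he)).2 (List.mem_toFinset.1 he')
    · intro x hx y hy hxy
      have h6 := (h4 x hx y hy).resolve_left hxy
      rw [mem_reachG] at h6
      exact trail_of_reach h6.2
    · intro x hx y hy
      have h6 := h5 x hx y hy
      rw [mem_reachG] at h6
      refine ReflTransGen.mono ?_ _ _ h6.2
      rintro a b ⟨hab, -⟩
      rw [List.mem_toFinset]
      exact of_decide_eq_true hab

theorem inNPP : InNPP AntistrongStrong := by
  obtain ⟨R, hR, hR'⟩ := pp_Rel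
  refine inNPP_of hR (2 * Polynomial.X + 1) fun D => ?_
  rw [problem_iff]
  have h : (2 * Polynomial.X + 1 : Polynomial ℕ).eval (sz D) = 2 * sz D + 1 := by simp
  simp only [h, hR']

end Pool.Agent.H66AS
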