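import Pool.Agent.H66AS.Complete
import Pool.Agent.NPC.Sat2
import Pool.Agent.H601R2.PP

/-!
# The reduction from 3-satisfiability
-/

set_option autoImplicit false

namespace Pool.Agent.H66AS

open Relation Pool.Agent.NPC

/-- injective coding of triples -/
def cd (t i j : ℕ) : ℕ := Nat.pair t (Nat.pair i j) + 4

theorem cd_inj {t i j t' i' j' : ℕ} : cd t i j = cd t' i' j' ↔ t = t' ∧ i = i' ∧ j = j' := by
  unfold cd
  rw [Nat.add_right_cancel_iff, Nat.pair_eq_pair, Nat.pair_eq_pair]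

theorem four_le_cd (t i j : ℕ) : 4 ≤ cd t i j := Nat.le_add_left _ _

abbrev Cl : Type := Lit ℕ × Lit ℕ × Lit ℕ

/-- the literal occurs in the clause -/
def occ (c : Cl) (l : Bool × ℕ) : Bool := decide (c.1 = l) || (decide (c.2.1 = l) || decide (c.2.2 = l))

theorem occ_iff (c : Cl) (l : Bool × ℕ) : occ c l = true ↔ c.1 = l ∨ c.2.1 = l ∨ c.2.2 = l := by
  simp [occ]

/-- the part of the digraph belonging to variable `i` and clause `j` -/
def blk (m : ℕ) (c : Cl) (i j : ℕ) : List (ℕ × ℕ × ℕ) :=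
  [(cd 1 i j, if j = 0 then 1 else cd 6 i (j - 1), if j = 0 then 2 else cd 5 i j),
    (cd 2 i j, cd 1 i j, cd 3 i j),
    (cd 3 i j, cd 2 i j, cd 4 i j),
    (cd 4 i j, cd 3 i j, cd 1 i ((j + 1) % m)),
    (cd 5 i j, cd 2 i j, if occ c (true, i) = true then cd 0 0 j else 1),
    (cd 6 i j, cd 4 i j, if occ c (false, i) = true then cd 0 0 j else 1)]

/-- the vertices outside the core, with their two in-neighbours -/
def redL (φ : List Cl) : List (ℕ × ℕ × ℕ) :=
  φ.zipIdx.map (fun p => (cd 0 0 p.2, 1, 2)) ++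
    (List.range (3 * φ.length)).flatMap (fun i => φ.zipIdx.flatMap fun p => blk φ.length p.1 i p.2)

/-- the vertices with a second arc to the core -/
def redB (φ : List Cl) : List ℕ :=
  (List.range (3 * φ.length)).flatMap (fun i => φ.zipIdx.flatMap fun p => [cd 5 i p.2, cd 6 i p.2])

/-- the reduction -/
def red (φ : List Cl) : DG := mkD (redL φ) (redB φ)

variable {φ : List Cl}

theorem mem_zipIdx {p : Cl × ℕ} : p ∈ φ.zipIdx ↔ ∃ h : p.2 < φ.length, φ[p.2] = p.1 := by
  rw [List.mem_zipIdx_iff_getElem?]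
  constructor
  · intro h
    obtain ⟨h1, h2⟩ := List.getElem?_eq_some_iff.1 h
    exact ⟨h1, h2⟩
  · rintro ⟨h1, h2⟩
    exact List.getElem?_eq_some_iff.2 ⟨h1, h2⟩

theorem mem_redL {p : ℕ × ℕ × ℕ} : p ∈ redL φ ↔ (∃ j < φ.length, p = (cd 0 0 j, 1, 2)) ∨
    ∃ i < 3 * φ.length, ∃ (j : ℕ) (h : j < φ.length), p ∈ blk φ.length φ[j] i j := by
  unfold redL
  rw [List.mem_append, List.mem_map, List.mem_flatMap]
  constructor
  · rintro (⟨q, hq, rfl⟩ | ⟨i, hi, hp⟩)
    · obtain ⟨h1, -⟩ := mem_zipIdx.1 hq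
      exact Or.inl ⟨_, h1, rfl⟩
    · rw [List.mem_flatMap] at hp
      obtain ⟨q, hq, hp⟩ := hp
      obtain ⟨h1, h2⟩ := mem_zipIdx.1 hq
      rw [← h2] at hp
      exact Or.inr ⟨i, List.mem_range.1 hi, _, h1, hp⟩
  · rintro (⟨j, hj, rfl⟩ | ⟨i, hi, j, hj, hp⟩)
    · exact Or.inl ⟨(φ[j], j), mem_zipIdx.2 ⟨hj, rfl⟩, rfl⟩
    · refine Or.inr ⟨i, List.mem_range.2 hi, ?_⟩
      rw [List.mem_flatMap]
      exact ⟨(φ[j], j), mem_zipIdx.2 ⟨hj, rfl⟩, hp⟩

theorem mem_redB {v : ℕ} : v ∈ redB φ ↔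
    ∃ i < 3 * φ.length, ∃ j < φ.length, v = cd 5 i j ∨ v = cd 6 i j := by
  unfold redB
  rw [List.mem_flatMap]
  constructor
  · rintro ⟨i, hi, hp⟩
    rw [List.mem_flatMap] at hp
    obtain ⟨q, hq, hp⟩ := hp
    obtain ⟨h1, h2⟩ := mem_zipIdx.1 hq
    simp only [List.mem_cons, List.not_mem_nil, or_false] at hp
    exact ⟨i, List.mem_range.1 hi, _, h1, hp⟩
  · rintro ⟨i, hi, j, hj, hp⟩
    refine ⟨i, List.mem_range.2 hi, ?_⟩
    rw [List.mem_flatMap]
    refine ⟨(φ[j], j), mem_zipIdx.2 ⟨hj, rfl⟩, ?_⟩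
    simpa only [List.mem_cons, List.not_mem_nil, or_false] using hp

theorem mem_blk {m : ℕ} {c : Cl} {i j : ℕ} {p : ℕ × ℕ × ℕ} : p ∈ blk m c i j ↔
    p = (cd 1 i j, if j = 0 then 1 else cd 6 i (j - 1), if j = 0 then 2 else cd 5 i j) ∨
    p = (cd 2 i j, cd 1 i j, cd 3 i j) ∨
    p = (cd 3 i j, cd 2 i j, cd 4 i j) ∨
    p = (cd 4 i j, cd 3 i j, cd 1 i ((j + 1) % m)) ∨
    p = (cd 5 i j, cd 2 i j, if occ c (true, i) = true then cd 0 0 j else 1) ∨
    p = (cd 6 i j, cd 4 i j, if occ c (false, i) = true then cd 0 0 j else 1) := by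
  simp only [blk, List.mem_cons, List.not_mem_nil, or_false]

/-- the names of the vertices outside the core -/
theorem mem_names {v : ℕ} : v ∈ (redL φ).map (fun p => p.1) ↔ (∃ j < φ.length, v = cd 0 0 j) ∨
    ∃ t i j, 1 ≤ t ∧ t ≤ 6 ∧ i < 3 * φ.length ∧ j < φ.length ∧ v = cd t i j := by
  rw [List.mem_map]
  constructor
  · rintro ⟨p, hp, rfl⟩
    rw [mem_redL] at hp
    rcases hp with ⟨j, hj, rfl⟩ | ⟨i, hi, j, hj, hp⟩
    · exact Or.inl ⟨j, hj, rfl⟩
    · rw [mem_blk] at hp
      rcases hp with rfl | rfl | rfl | rfl | rfl | rfl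
      · exact Or.inr ⟨1, i, j, by omega, by omega, hi, hj, rfl⟩
      · exact Or.inr ⟨2, i, j, by omega, by omega, hi, hj, rfl⟩
      · exact Or.inr ⟨3, i, j, by omega, by omega, hi, hj, rfl⟩
      · exact Or.inr ⟨4, i, j, by omega, by omega, hi, hj, rfl⟩
      · exact Or.inr ⟨5, i, j, by omega, by omega, hi, hj, rfl⟩
      · exact Or.inr ⟨6, i, j, by omega, by omega, hi, hj, rfl⟩
  · rintro (⟨j, hj, rfl⟩ | ⟨t, i, j, h1, h2, hi, hj, rfl⟩)
    · exact ⟨_, mem_redL.2 (Or.inl ⟨j, hj, rfl⟩), rfl⟩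
    · have : t = 1 ∨ t = 2 ∨ t = 3 ∨ t = 4 ∨ t = 5 ∨ t = 6 := by omega
      rcases this with rfl | rfl | rfl | rfl | rfl | rfl
      · exact ⟨_, mem_redL.2 (Or.inr ⟨i, hi, j, hj, mem_blk.2 (Or.inl rfl)⟩), rfl⟩
      · exact ⟨_, mem_redL.2 (Or.inr ⟨i, hi, j, hj, mem_blk.2 (Or.inr (Or.inl rfl))⟩), rfl⟩
      · exact ⟨_, mem_redL.2 (Or.inr ⟨i, hi, j, hj, mem_blk.2 (Or.inr (Or.inr (Or.inl rfl)))⟩), rfl⟩
      · exact ⟨_, mem_redL.2 (Or.inr ⟨i, hi, j, hj, mem_blk.2
          (Or.inr (Or.inr (Or.inr (Or.inl rfl))))⟩), rfl⟩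
      · exact ⟨_, mem_redL.2 (Or.inr ⟨i, hi, j, hj, mem_blk.2
          (Or.inr (Or.inr (Or.inr (Or.inr (Or.inl rfl)))))⟩), rfl⟩
      · exact ⟨_, mem_redL.2 (Or.inr ⟨i, hi, j, hj, mem_blk.2
          (Or.inr (Or.inr (Or.inr (Or.inr (Or.inr rfl)))))⟩), rfl⟩

theorem names_blk (m : ℕ) (c : Cl) (i j : ℕ) : (blk m c i j).map (fun p => p.1) =
    [cd 1 i j, cd 2 i j, cd 3 i j, cd 4 i j, cd 5 i j, cd 6 i j] := rfl

theorem zipIdx_pairwise : φ.zipIdx.Pairwise (fun p q => p.2 ≠ q.2) := by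
  have h : (φ.zipIdx.map (fun p => p.2)).Nodup := by
    rw [show (fun p : Cl × ℕ => p.2) = Prod.snd from rfl, List.zipIdx_map_snd]
    exact List.nodup_range' ..
  rw [List.Nodup, List.pairwise_map] at h
  exact h

theorem ok (φ : List Cl) : Ok (redL φ) (redB φ) := by
  constructor
  · -- distinct names
    unfold redL
    rw [List.map_append, List.map_map, List.map_flatMap, List.nodup_append]
    refine ⟨?_, ?_, ?_⟩
    · rw [List.Nodup, List.pairwise_map]
      refine zipIdx_pairwise.imp ?_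
      intro p q hpq h
      simp only [Function.comp, cd_inj] at h
      exact hpq h.2.2
    · rw [List.nodup_flatMap]
      constructor
      · intro i _
        rw [List.map_flatMap, List.nodup_flatMap]
        constructor
        · intro p _
          rw [names_blk]
          simp [cd_inj]
        · refine zipIdx_pairwise.imp ?_
          intro p q hpq x hx hx'
          simp only [names_blk, List.mem_cons, List.not_mem_nil, or_false] at hx hx'
          rcases hx with rfl | rfl | rfl | rfl | rfl | rfl <;> simp [cd_inj, hpq] at hx'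
      · refine List.nodup_range.pairwise_of_forall_ne ?_
        intro i _ i' _ hii x hx hx'
        simp only [List.map_flatMap, List.mem_flatMap, names_blk, List.mem_cons, List.not_mem_nil,
          or_false] at hx hx'
        obtain ⟨p, -, hx⟩ := hx
        obtain ⟨q, -, hx'⟩ := hx'
        rcases hx with rfl | rfl | rfl | rfl | rfl | rfl <;> simp [cd_inj, hii] at hx'
    · intro a ha b hb
      rw [List.mem_map] at ha
      obtain ⟨p, -, rfl⟩ := ha
      simp only [List.map_flatMap, List.mem_flatMap, names_blk, List.mem_cons, List.not_mem_nil,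
        or_false] at hb
      obtain ⟨i, -, q, -, hb⟩ := hb
      rcases hb with rfl | rfl | rfl | rfl | rfl | rfl <;> simp [cd_inj]
  · intro p hp
    have h1 := mem_names.1 (List.mem_map_of_mem (f := fun p : ℕ × ℕ × ℕ => p.1) hp)
    rcases h1 with ⟨j, -, h⟩ | ⟨t, i, j, -, -, -, -, h⟩ <;> rw [h] <;>
      exact four_le_cd _ _ _
  · intro p hp
    rw [mem_redL] at hp
    rcases hp with ⟨j, hj, rfl⟩ | ⟨i, hi, j, hj, hp⟩
    · have := four_le_cd 0 0 j
      simp only
      refine ⟨?_, ?_, ?_⟩ <;> omega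
    · rw [mem_blk] at hp
      have c1 := four_le_cd 5 i j
      have c2 := four_le_cd 6 i j
      have c3 := four_le_cd 1 i j
      have c4 := four_le_cd 6 i (j - 1)
      rcases hp with rfl | rfl | rfl | rfl | rfl | rfl
      · simp only
        split_ifs
        · refine ⟨?_, ?_, ?_⟩ <;> omega
        · simp [cd_inj]
      · simp [cd_inj]
      · simp [cd_inj]
      · simp [cd_inj]
      · simp only
        split_ifs
        · simp [cd_inj]
        · have c5 := four_le_cd 2 i j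
          refine ⟨?_, ?_, ?_⟩
          · omega
          · simp [cd_inj]
          · omega
      · simp only
        split_ifs
        · simp [cd_inj]
        · have c5 := four_le_cd 4 i j
          refine ⟨?_, ?_, ?_⟩
          · omega
          · simp [cd_inj]
          · omega
  · intro p hp
    rw [mem_redL] at hp
    rcases hp with ⟨j, hj, rfl⟩ | ⟨i, hi, j, hj, hp⟩
    · exact Or.inl rfl
    · rw [mem_names]
      rw [mem_blk] at hp
      rcases hp with rfl | rfl | rfl | rfl | rfl | rfl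
      · by_cases h0 : j = 0
        · simp [h0]
        · simp only [h0, if_false]
          exact Or.inr (Or.inr (Or.inr ⟨6, i, j - 1, by omega, by omega, hi, by omega, rfl⟩))
      · exact Or.inr (Or.inr (Or.inr ⟨1, i, j, by omega, by omega, hi, hj, rfl⟩))
      · exact Or.inr (Or.inr (Or.inr ⟨2, i, j, by omega, by omega, hi, hj, rfl⟩))
      · exact Or.inr (Or.inr (Or.inr ⟨3, i, j, by omega, by omega, hi, hj, rfl⟩))
      · exact Or.inr (Or.inr (Or.inr ⟨2, i, j, by omega, by omega, hi, hj, rfl⟩))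
      · exact Or.inr (Or.inr (Or.inr ⟨4, i, j, by omega, by omega, hi, hj, rfl⟩))
  · intro p hp
    rw [mem_redL] at hp
    rcases hp with ⟨j, hj, rfl⟩ | ⟨i, hi, j, hj, hp⟩
    · exact Or.inr (Or.inl rfl)
    · rw [mem_names]
      rw [mem_blk] at hp
      rcases hp with rfl | rfl | rfl | rfl | rfl | rfl
      · by_cases h0 : j = 0
        · simp [h0]
        · simp only [h0, if_false]
          exact Or.inr (Or.inr (Or.inr ⟨5, i, j, by omega, by omega, hi, hj, rfl⟩))
      · exact Or.inr (Or.inr (Or.inr ⟨3, i, j, by omega, by omega, hi, hj, rfl⟩))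
      · exact Or.inr (Or.inr (Or.inr ⟨4, i, j, by omega, by omega, hi, hj, rfl⟩))
      · exact Or.inr (Or.inr (Or.inr ⟨1, i, _, by omega, by omega, hi, Nat.mod_lt _ (by omega), rfl⟩))
      · simp only
        split_ifs
        · exact Or.inr (Or.inr (Or.inl ⟨j, hj, rfl⟩))
        · exact Or.inl rfl
      · simp only
        split_ifs
        · exact Or.inr (Or.inr (Or.inl ⟨j, hj, rfl⟩))
        · exact Or.inl rfl
  · unfold redB
    rw [List.nodup_flatMap]
    constructor
    · intro i _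
      rw [List.nodup_flatMap]
      constructor
      · intro p _
        simp [cd_inj]
      · refine zipIdx_pairwise.imp ?_
        intro p q hpq x hx hx'
        simp only [List.mem_cons, List.not_mem_nil, or_false] at hx hx'
        rcases hx with rfl | rfl <;> simp [cd_inj, hpq] at hx'
    · refine List.nodup_range.pairwise_of_forall_ne ?_
      intro i _ i' _ hii x hx hx'
      simp only [List.mem_flatMap, List.mem_cons, List.not_mem_nil, or_false] at hx hx'
      obtain ⟨p, -, hx⟩ := hx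
      obtain ⟨q, -, hx'⟩ := hx'
      rcases hx with rfl | rfl <;> simp [cd_inj, hii] at hx'
  · intro v hv
    rw [mem_redB] at hv
    rw [mem_names]
    obtain ⟨i, hi, j, hj, rfl | rfl⟩ := hv
    · exact Or.inr ⟨5, i, j, by omega, by omega, hi, hj, rfl⟩
    · exact Or.inr ⟨6, i, j, by omega, by omega, hi, hj, rfl⟩

end Pool.Agent.H66AS
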