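import Pool.Agent.H66AS.Defs

/-!
# What a pair of subdigraphs looks like
-/

set_option autoImplicit false

namespace Pool.Agent.H66AS

open Relation

variable {L : List (ℕ × ℕ × ℕ)} {B : List ℕ}

theorem altArcs_concat (b : Bool) (l : List ℕ) (x y : ℕ) :
    altArcs b (l ++ [x, y]) = altArcs b (l ++ [x]) ++
      [if (b ^^ decide (l.length % 2 = 1)) = true then (x, y) else (y, x)] := by
  induction l generalizing b with
  | nil => simp [altArcs]
  | cons a l ih =>
    cases l with
    | nil =>
      cases b <;> simp [altArcs]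
    | cons c l =>
      have := ih (!b)
      simp only [List.cons_append] at this ⊢
      rw [altArcs, this, altArcs, List.cons_append]
      congr 2
      rw [List.length_cons, List.length_cons, List.length_cons]
      congr 2
      rcases Nat.mod_two_eq_zero_or_one l.length with h | h
      · have h1 : (l.length + 1) % 2 = 1 := by omega
        have h2 : (l.length + 1 + 1) % 2 = 0 := by omega
        rw [h1, h2]
        cases b <;> simp
      · have h1 : (l.length + 1) % 2 = 0 := by omega
        have h2 : (l.length + 1 + 1) % 2 = 1 := by omega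
        rw [h1, h2]
        cases b <;> simp

theorem altArcs_length (b : Bool) (l : List ℕ) : (altArcs b l).length = l.length - 1 := by
  induction l generalizing b with
  | nil => simp [altArcs]
  | cons a l ih =>
    cases l with
    | nil => simp [altArcs]
    | cons c l =>
      rw [altArcs, List.length_cons, ih]
      simp

/-- the last arc of a forward trail enters its last vertex -/
theorem IsFwdTrail.last {A : Finset (ℕ × ℕ)} {x y : ℕ} {l : List ℕ} (h : IsFwdTrail A x y l) :
    ∃ z, (z, y) ∈ A := by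
  obtain ⟨h1, h2, h3, -, h5⟩ := h
  rw [altArcs_length] at h3
  rcases List.eq_nil_or_concat l with rfl | ⟨l', a, rfl⟩
  · simp at h1
  · rcases List.eq_nil_or_concat l' with rfl | ⟨l'', b, rfl⟩
    · simp at h3
    · rw [List.concat_eq_append, List.concat_eq_append, List.append_assoc] at *
      rw [List.singleton_append] at h1 h2 h3 h5
      rw [altArcs_concat] at h5
      have hy : a = y := by
        rw [List.getLast?_append] at h2
        simpa using h2
      subst hy
      refine ⟨b, ?_⟩
      apply h5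
      rw [List.mem_append]
      right
      have h7 : l''.length % 2 = 0 := by
        rw [List.length_append] at h3
        simp only [List.length_cons, List.length_nil] at h3
        rcases h3 with ⟨k, hk⟩
        omega
      simp [h7]

/-- the structure of solutions -/
structure Sol (L : List (ℕ × ℕ × ℕ)) (B : List ℕ) (P : ℕ → ℕ → Prop) : Prop where
  xor : ∀ p ∈ L, (P p.2.1 p.1 ∧ ¬ P p.2.2 p.1) ∨ (P p.2.2 p.1 ∧ ¬ P p.2.1 p.1)
  child : ∀ p ∈ L, p.1 ∉ B → ∃ q ∈ L, P p.1 q.1 ∧ (p.1 = q.2.1 ∨ p.1 = q.2.2)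
  cyc : ∀ p ∈ L, ∀ q ∈ L, ¬ (P p.1 q.1 ∧ P q.1 p.1)

theorem sol_of_hasPair (h : Ok L B) (hD : HasPair (mkD L B)) : ∃ P, Sol L B P := by
  obtain ⟨A1, A2, hA1, hA2, hdis, hanti, hstr⟩ := hD
  have hmem : ∀ p ∈ L, p.1 ∈ (mkD L B).1 := by
    intro p hp
    exact List.mem_append_right _ (List.mem_map_of_mem hp)
  have h0 : (0 : ℕ) ∈ (mkD L B).1 := by simp [mkD]
  have h3 : (3 : ℕ) ∈ (mkD L B).1 := by simp [mkD]
  have hne : ∀ e, e ∈ A1 → e ∈ A2 → False := by
    intro e h1 h2
    exact (Finset.disjoint_left.1 hdis h1) h2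
  -- in-arcs
  have hin2 : ∀ p ∈ L, ∃ x, (x, p.1) ∈ A2 := by
    intro p hp
    have h4 := h.four p hp
    have := hstr 0 h0 p.1 (hmem p hp)
    rcases ReflTransGen.cases_tail this with h5 | ⟨c, -, hc⟩
    · omega
    · exact ⟨c, hc⟩
  have hin1 : ∀ p ∈ L, ∃ x, (x, p.1) ∈ A1 := by
    intro p hp
    have h4 := h.four p hp
    obtain ⟨l, hl⟩ := hanti.2 0 h0 p.1 (hmem p hp) (by omega)
    exact hl.last
  have hxor : ∀ p ∈ L, ((p.2.1, p.1) ∈ A2 ∧ (p.2.2, p.1) ∈ A1) ∨
      ((p.2.2, p.1) ∈ A2 ∧ (p.2.1, p.1) ∈ A1) := by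
    intro p hp
    obtain ⟨x, hx⟩ := hin2 p hp
    obtain ⟨y, hy⟩ := hin1 p hp
    have hx' := (h.in_arc hp).1 (hA2 _ hx)
    have hy' := (h.in_arc hp).1 (hA1 _ hy)
    rcases hx' with rfl | rfl <;> rcases hy' with rfl | rfl
    · exact absurd hx fun h => hne _ hy h
    · exact Or.inl ⟨hx, hy⟩
    · exact Or.inr ⟨hx, hy⟩
    · exact absurd hx fun h => hne _ hy h
  have huniq1 : ∀ p ∈ L, ∀ x y, (x, p.1) ∈ A1 → (y, p.1) ∈ A1 → x = y := by
    intro p hp x y hx hy
    have hx' := (h.in_arc hp).1 (hA1 _ hx)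
    have hy' := (h.in_arc hp).1 (hA1 _ hy)
    rcases hxor p hp with ⟨h5, h6⟩ | ⟨h5, h6⟩
    · rcases hx' with rfl | rfl
      · exact absurd h5 fun h => hne _ hx h
      · rcases hy' with rfl | rfl
        · exact absurd h5 fun h => hne _ hy h
        · rfl
    · rcases hx' with rfl | rfl
      · rcases hy' with rfl | rfl
        · rfl
        · exact absurd h5 fun h => hne _ hy h
      · exact absurd h5 fun h => hne _ hx h
  have huniq2 : ∀ p ∈ L, ∀ x y, (x, p.1) ∈ A2 → (y, p.1) ∈ A2 → x = y := by
    intro p hp x y hx hy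
    have hx' := (h.in_arc hp).1 (hA2 _ hx)
    have hy' := (h.in_arc hp).1 (hA2 _ hy)
    rcases hxor p hp with ⟨h5, h6⟩ | ⟨h5, h6⟩
    · rcases hx' with rfl | rfl
      · rcases hy' with rfl | rfl
        · rfl
        · exact absurd hy fun h => hne _ h6 h
      · exact absurd hx fun h => hne _ h6 h
    · rcases hx' with rfl | rfl
      · exact absurd hx fun h => hne _ h6 h
      · rcases hy' with rfl | rfl
        · exact absurd hy fun h => hne _ h6 h
        · rfl
  have hout : ∀ p ∈ L, p.1 ∉ B → (p.1, 0) ∈ A1 := by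
    intro p hp hpB
    have h4 := h.four p hp
    obtain ⟨l, hl⟩ := hanti.2 p.1 (hmem p hp) 3 h3 (by omega)
    obtain ⟨h5, h6, -, h8, h9⟩ := hl
    match l, h5, h6, h8, h9 with
    | [], h5, _, _, _ => simp at h5
    | [a], h5, h6, _, _ =>
      simp only [List.head?_cons, Option.some.injEq] at h5
      simp only [List.getLast?_singleton, Option.some.injEq] at h6
      omega
    | a :: b :: l, h5, h6, h8, h9 =>
      simp only [List.head?_cons, Option.some.injEq] at h5
      subst h5
      have h10 : (p.1, b) ∈ A1 := h9 _ (by simp [altArcs])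
      rcases h.out_arc hp (hA1 _ h10) with rfl | ⟨-, h11⟩ | ⟨q, hq, rfl, h11⟩
      · exact h10
      · exact absurd h11 hpB
      · match l, h6, h8, h9 with
        | [], h6, _, _ =>
          have := h.four q hq
          simp only [List.getLast?_cons_cons, List.getLast?_singleton, Option.some.injEq] at h6
          omega
        | c :: l, h6, h8, h9 =>
          have h12 : (c, q.1) ∈ A1 := h9 _ (by simp [altArcs])
          have h13 := huniq1 q hq _ _ h10 h12
          subst h13
          simp [altArcs] at h8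
  refine ⟨fun x y => (x, y) ∈ A2, ?_, ?_, ?_⟩
  · intro p hp
    rcases hxor p hp with ⟨h5, h6⟩ | ⟨h5, h6⟩
    · exact Or.inl ⟨h5, fun h7 => hne _ h6 h7⟩
    · exact Or.inr ⟨h5, fun h7 => hne _ h6 h7⟩
  · intro p hp hpB
    have h4 := h.four p hp
    have h5 := hout p hp hpB
    rcases ReflTransGen.cases_head (hstr p.1 (hmem p hp) 0 h0) with h6 | ⟨c, hc, -⟩
    · omega
    · rcases h.out_arc hp (hA2 _ hc) with rfl | ⟨-, h11⟩ | ⟨q, hq, rfl, h11⟩
      · exact absurd hc fun h => hne _ h5 h
      · exact absurd h11 hpB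
      · exact ⟨q, hq, hc, h11⟩
  · rintro p hp q hq ⟨h5, h6⟩
    have h4 := h.four p hp
    have h4' := h.four q hq
    have key : ∀ z, ReflTransGen (fun a b => (a, b) ∈ A2) 0 z → z ≠ p.1 ∧ z ≠ q.1 := by
      intro z hz
      induction hz with
      | refl => omega
      | tail h7 h8 ih =>
        constructor
        · rintro rfl
          exact ih.2 (huniq2 p hp _ _ h8 h6)
        · rintro rfl
          exact ih.1 (huniq2 q hq _ _ h8 h5)
    exact (key p.1 (hstr 0 h0 p.1 (hmem p hp))).1 rfl

end Pool.Agent.H66AS
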